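import Pool.Agent.H430.Cl.Emb

/-!
The discriminant and the distances of the conjugates.
-/

set_option autoImplicit false

namespace Pool.Agent.H430.Cl

open Finset NumberField IsDedekindDomain Height Module Polynomial
open Pool.Agent.W180.OP (Pl av wt fv nrm wt_nonneg le_nrm exists_nrm)
open Pool.Agent.NH28 (Ov nn ab mem_ab sum_nn one_le_nn nn_ext nn_nonneg exists_below ov_unique
  sum_split height_sum prod_formula fab mem_fab)

/-- the proximity of `y` and `z` at the place `u` over `v` -/
noncomputable def rho {K E : Type} [Field K] [NumberField K] [Field E] [NumberField E]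
    [Algebra K E] (v : Pl K) (u : Pl E) (y z : E) : ℝ :=
  wt u * (Real.log (max 1 (av u y)) + Real.log (max 1 (av u z)) - Real.log (av u (y - z))) /
    nn v u

/-- the part at `v` of the discriminant of `x` -/
noncomputable def dsc {K L : Type} [Field K] [NumberField K] [Field L] [NumberField L]
    [Algebra K L] (v : Pl K) (x : L) : ℝ :=
  (2 * finrank K L - 2) * ∑ w ∈ ab L v, wt w * Real.log (max 1 (av w x)) -
    wt v * Real.log (av v (minpoly K x).discr)

section tower

variable {K L E : Type} [Field K] [NumberField K] [Field L] [NumberField L] [Field E]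
  [NumberField E] [Algebra K L] [Algebra L E] [Algebra K E] [IsScalarTower K L E]

open scoped Classical in
/-- the discriminant in terms of the conjugates -/
lemma discr_eq [IsGalois K E] (x : E) : ∃ s : E, s ^ 2 = 1 ∧
    algebraMap K E (minpoly K x).discr =
      s * ∏ y ∈ cj K x, ∏ z ∈ (cj K x).erase y, (y - z) := by
  classical
  set f := minpoly K x with hf
  have hfi : IsIntegral K x := Algebra.IsIntegral.isIntegral x
  have hmon : f.Monic := minpoly.monic hfi
  have hdeg : 0 < f.degree := minpoly.degree_pos hfi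
  have h1 := resultant_deriv hdeg
  rw [hmon.leadingCoeff, mul_one] at h1
  have h2 := congrArg (algebraMap K E) h1
  rw [← resultant_map_map, map_mul, map_pow, map_neg, map_one] at h2
  set F := f.map (algebraMap K E) with hF
  have hFd : F.natDegree = f.natDegree := natDegree_map _
  have hFs : F.Splits := IsGalois.splits K x
  have hFm : F.Monic := hmon.map _
  have hroots : F.roots = (cj K x).val := by
    unfold cj
    rw [Multiset.toFinset_val, Multiset.dedup_eq_self.2 (aroots_nodup x)]
  have hprod : F = ∏ z ∈ cj K x, (X - C z) := by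
    rw [hFs.eq_prod_roots_of_monic hFm, hroots]
    rfl
  have h3 : resultant F (f.derivative.map (algebraMap K E)) f.natDegree (f.natDegree - 1) =
      ∏ y ∈ cj K x, ∏ z ∈ (cj K x).erase y, (y - z) := by
    rw [← hFd, resultant_eq_prod_eval F _ _ (by
      rw [hFd]
      exact (natDegree_map_le).trans (natDegree_derivative_le f)) hFs, hFm.leadingCoeff, one_pow,
      one_mul, hroots]
    refine prod_congr rfl fun y hy => ?_
    rw [← derivative_map, ← hF, hprod, derivative_prod_finset, eval_finsetSum,
      sum_eq_single_of_mem y hy]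
    · simp only [derivative_sub, derivative_X, derivative_C, sub_zero, mul_one, eval_prod,
        eval_sub, eval_X, eval_C]
    · intro b hb hby
      rw [eval_mul, eval_prod, prod_eq_zero (mem_erase.2 ⟨hby.symm, hy⟩) (by simp), zero_mul]
  rw [h3] at h2
  refine ⟨(-1) ^ (f.natDegree * (f.natDegree - 1) / 2), ?_, ?_⟩
  · rw [← pow_mul, mul_comm, pow_mul, neg_one_sq, one_pow]
  · rw [h2, ← mul_assoc, ← pow_add, ← two_mul, pow_mul, neg_one_sq, one_pow, one_mul]

lemma discr_ne_zero [IsGalois K E] (x : E) : (minpoly K x).discr ≠ 0 := by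
  classical
  obtain ⟨s, hs, h⟩ := discr_eq (K := K) x
  intro h0
  rw [h0, map_zero] at h
  have h1 : s ≠ 0 := by
    rintro rfl
    norm_num at hs
  have h2 := (mul_eq_zero.1 h.symm).resolve_left h1
  rw [prod_eq_zero_iff] at h2
  obtain ⟨y, hy, h3⟩ := h2
  rw [prod_eq_zero_iff] at h3
  obtain ⟨z, hz, h4⟩ := h3
  exact (mem_erase.1 hz).1 (sub_eq_zero.1 h4).symm

lemma log_max_eq (t : ℝ) (ht : 0 ≤ t) : Real.log (max 1 t) = max 0 (Real.log t) := by
  rcases le_total 1 t with h | h
  · rw [max_eq_right h, max_eq_right (Real.log_nonneg h)]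
  · rw [max_eq_left h, Real.log_one, max_eq_left]
    exact Real.log_nonpos ht h

/-- the pairs of distinct conjugates -/
noncomputable def cjp (K : Type) {E : Type} [Field K] [Field E] [Algebra K E] (x : E) :
    Finset (E × E) := open Classical in (cj K x).offDiag

open scoped Classical in
lemma sum_cjp {K E : Type} [Field K] [Field E] [Algebra K E] (x : E) (f : E → E → ℝ) :
    ∑ p ∈ cjp K x, f p.1 p.2 = ∑ y ∈ cj K x, ∑ z ∈ (cj K x).erase y, f y z := by
  have h : cjp K x = (cj K x ×ˢ cj K x).filter (fun p => p.1 ≠ p.2) := by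
    ext p
    unfold cjp
    rw [mem_offDiag, mem_filter, mem_product, and_assoc]
  rw [h, sum_filter, sum_product]
  refine sum_congr rfl fun y _ => ?_
  simp only
  rw [← sum_filter, filter_ne]

open scoped Classical in
/-- the local formula for the discriminant -/
theorem dsc_eq' [IsGalois K E] {x : L} (hx : IntermediateField.adjoin K {x} = ⊤) {v : Pl K}
    {u : Pl E} (h : Ov v u) : dsc v x =
      ∑ y ∈ cj K (algebraMap L E x), ∑ z ∈ (cj K (algebraMap L E x)).erase y, rho v u y z := by
  classical
  have hx0 : algebraMap K E (minpoly K x).discr = algebraMap K E (minpoly K (algebraMap L E x)).discr := by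
    rw [minpoly.algebraMap_eq (algebraMap L E).injective]
  have hnn : 0 < nn v u := by
    have := one_le_nn h
    linarith
  set Cj := cj K (algebraMap L E x) with hCj
  have hcj : (Cj.card : ℝ) = finrank K L := by
    rw [hCj, card_cj, minpoly.algebraMap_eq (algebraMap L E).injective]
    have h1 := IntermediateField.adjoin.finrank (K := K) (x := x)
      (Algebra.IsIntegral.isIntegral x)
    rw [hx, IntermediateField.finrank_top'] at h1
    rw [h1]
  -- the logarithmic heights
  have h1 : ∑ y ∈ Cj, wt u * Real.log (max 1 (av u y)) / nn v u =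
      ∑ w ∈ ab L v, wt w * Real.log (max 1 (av w x)) := by
    have h2 := place_sum (E := E) hx h
      (fun w => wt w * Real.log (max 1 (av w x)) / nn v w)
      (fun y => wt u * Real.log (max 1 (av u y)) / nn v u) (by
        intro σ w hw
        have hvw : Ov v w := ov_tower (pull_ov σ h) hw
        have e1 := pos_ext hw x
        rw [pull_wt, pull_av] at e1
        rw [log_max_eq _ ((av u).nonneg _), log_max_eq _ ((av w).nonneg _), e1,
          ← pull_nn σ h, nn_mul hvw hw, mul_comm (nn v w)]
        have h3 : nn w (pull σ u) ≠ 0 := by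
          have := one_le_nn hw
          linarith
        rw [mul_div_mul_left _ _ h3])
    rw [h2]
    refine sum_congr rfl fun w hw => ?_
    have h3 : nn v w ≠ 0 := by
      have := one_le_nn (mem_ab.1 hw)
      linarith
    field_simp
  -- the discriminant
  obtain ⟨s, hs, hd⟩ := discr_eq (K := K) (algebraMap L E x)
  have hs1 : av u s = 1 := by
    have h2 : av u s ^ 2 = 1 := by rw [← map_pow, hs, map_one]
    exact (pow_eq_one_iff_of_nonneg ((av u).nonneg s) two_ne_zero).1 h2
  have hne : ∀ y ∈ Cj, ∀ z ∈ Cj.erase y, av u (y - z) ≠ 0 := fun y _ z hz =>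
    ((av u).pos_iff.2 (sub_ne_zero.2 (mem_erase.1 hz).1.symm)).ne'
  have h2 : wt v * Real.log (av v (minpoly K x).discr) =
      ∑ y ∈ Cj, ∑ z ∈ Cj.erase y, wt u * Real.log (av u (y - z)) / nn v u := by
    have e1 := nn_ext h (minpoly K x).discr
    rw [hx0, hd, map_mul, hs1, one_mul, map_prod, Real.log_prod (fun y hy => by
      rw [map_prod]
      exact prod_ne_zero_iff.2 (hne y hy))] at e1
    have e2 : ∀ y ∈ Cj, Real.log (av u (∏ z ∈ Cj.erase y, (y - z))) =
        ∑ z ∈ Cj.erase y, Real.log (av u (y - z)) := by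
      intro y hy
      rw [map_prod, Real.log_prod (hne y hy)]
    rw [sum_congr rfl e2] at e1
    have e3 : wt v * Real.log (av v (minpoly K x).discr) =
        wt u * (∑ y ∈ Cj, ∑ z ∈ Cj.erase y, Real.log (av u (y - z))) / nn v u := by
      rw [e1]
      field_simp
    rw [e3, mul_sum, sum_div]
    refine sum_congr rfl fun y _ => ?_
    rw [mul_sum, sum_div]
  -- the sum of the two heights
  have hsym : ∑ y ∈ Cj, ∑ z ∈ Cj.erase y, wt u * Real.log (max 1 (av u z)) / nn v u =
      ∑ y ∈ Cj, ∑ z ∈ Cj.erase y, wt u * Real.log (max 1 (av u y)) / nn v u := by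
    rw [sum_comm' (t' := Cj) (s' := fun z => Cj.erase z)]
    intro y z
    rw [mem_erase, mem_erase]
    constructor
    · rintro ⟨h1, h2, h3⟩
      exact ⟨⟨h2.symm, h1⟩, h3⟩
    · rintro ⟨⟨h1, h2⟩, h3⟩
      exact ⟨h2, h1.symm, h3⟩
  have hconst : ∑ y ∈ Cj, ∑ z ∈ Cj.erase y, wt u * Real.log (max 1 (av u y)) / nn v u =
      (finrank K L - 1) * ∑ w ∈ ab L v, wt w * Real.log (max 1 (av w x)) := by
    rw [← h1, mul_sum]
    refine sum_congr rfl fun y hy => ?_
    rw [sum_const, nsmul_eq_mul, card_erase_of_mem hy, Nat.cast_sub (card_pos.2 ⟨y, hy⟩), hcj]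
    simp
  have hrho : ∀ y z : E, rho v u y z = wt u * Real.log (max 1 (av u y)) / nn v u +
      wt u * Real.log (max 1 (av u z)) / nn v u - wt u * Real.log (av u (y - z)) / nn v u := by
    intro y z
    unfold rho
    ring
  simp only [hrho, sum_add_distrib, sum_sub_distrib]
  rw [hsym, hconst, ← h2]
  unfold dsc
  ring

/-- the local formula for the discriminant -/
theorem dsc_eq [IsGalois K E] {x : L} (hx : IntermediateField.adjoin K {x} = ⊤) {v : Pl K}
    {u : Pl E} (h : Ov v u) : dsc v x =
      ∑ p ∈ cjp K (algebraMap L E x), rho v u p.1 p.2 := by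
  rw [dsc_eq' hx h, sum_cjp]

end tower

end Pool.Agent.H430.Cl
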