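import Pool.Agent.H430.Cl.Tow
import Pool.Graph.R_seed8.Helper259.HtExt

/-!
Conjugates and places.
-/

set_option autoImplicit false

namespace Pool.Agent.H430.Cl

open Finset NumberField IsDedekindDomain Height Module Polynomial
open Pool.Agent.W180.OP (Pl av wt fv nrm wt_nonneg le_nrm exists_nrm)
open Pool.Agent.NH28 (Ov nn ab mem_ab sum_nn one_le_nn nn_ext nn_nonneg exists_below ov_unique
  sum_split height_sum prod_formula fab mem_fab)

/-- the conjugates of `x` over `K` in `E` -/
noncomputable def cj (K : Type) {E : Type} [Field K] [Field E] [Algebra K E] (x : E) : Finset E :=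
  open Classical in ((minpoly K x).aroots E).toFinset

section tower

variable {K L E : Type} [Field K] [NumberField K] [Field L] [NumberField L] [Field E]
  [NumberField E] [Algebra K L] [Algebra L E] [Algebra K E] [IsScalarTower K L E]

lemma mem_cj {x y : E} : y ∈ cj K x ↔ aeval y (minpoly K x) = 0 := by
  classical
  unfold cj
  rw [Multiset.mem_toFinset, mem_aroots]
  exact and_iff_right (minpoly.ne_zero (Algebra.IsIntegral.isIntegral x))

lemma self_mem_cj (x : E) : x ∈ cj K x := mem_cj.2 (minpoly.aeval K x)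

lemma aroots_nodup (x : E) : ((minpoly K x).aroots E).Nodup :=
  nodup_roots (Separable.map (minpoly.irreducible (Algebra.IsIntegral.isIntegral x)).separable)

lemma card_cj [IsGalois K E] (x : E) : (cj K x).card = (minpoly K x).natDegree := by
  classical
  unfold cj
  rw [Multiset.toFinset_card_of_nodup (aroots_nodup x)]
  have h := IsGalois.splits K x
  rw [aroots_def, ← natDegree_map (algebraMap K E)]
  exact h.natDegree_eq_card_roots.symm

lemma gal_mem_cj {x y : E} (σ : E ≃ₐ[K] E) : σ y ∈ cj K x ↔ y ∈ cj K x := by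
  rw [mem_cj, mem_cj]
  have h : aeval (σ y) (minpoly K x) = σ (aeval y (minpoly K x)) := aeval_algHom_apply σ y _
  rw [h, map_eq_zero_iff σ σ.injective]

/-- the sum over the Galois group of a function of the conjugate -/
lemma root_sum [IsGalois K E] (x : E) (G : E → ℝ) :
    ((cj K x).card : ℝ) * ∑ σ : E ≃ₐ[K] E, G (σ x) = finrank K E * ∑ y ∈ cj K x, G y := by
  classical
  have hcard : (Fintype.card (E ≃ₐ[K] E) : ℝ) = finrank K E := by
    rw [← IsGalois.card_aut_eq_finrank K E, Nat.card_eq_fintype_card]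
  have hind : ∀ y ∈ cj K x, ∑ σ : E ≃ₐ[K] E, G (σ y) = ∑ σ : E ≃ₐ[K] E, G (σ x) := by
    intro y hy
    obtain ⟨τ, hτ⟩ := minpoly.exists_algEquiv_of_root' (Algebra.IsAlgebraic.isAlgebraic x)
      (mem_cj.1 hy)
    rw [← hτ]
    exact Fintype.sum_equiv (Equiv.mulRight τ) _ _ fun σ => rfl
  have hperm : ∀ σ : E ≃ₐ[K] E, ∑ y ∈ cj K x, G (σ y) = ∑ y ∈ cj K x, G y := by
    intro σ
    refine sum_nbij' (fun y => σ y) (fun y => σ⁻¹ y) ?_ ?_ ?_ ?_ ?_
    · intro y hy
      exact (gal_mem_cj σ).2 hy
    · intro y hy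
      exact (gal_mem_cj σ⁻¹).2 hy
    · intro y _
      show (σ⁻¹ * σ) y = y
      rw [inv_mul_cancel]
      rfl
    · intro y _
      show (σ * σ⁻¹) y = y
      rw [mul_inv_cancel]
      rfl
    · intro y _
      rfl
  have h1 : ∑ y ∈ cj K x, ∑ σ : E ≃ₐ[K] E, G (σ y) =
      ((cj K x).card : ℝ) * ∑ σ : E ≃ₐ[K] E, G (σ x) := by
    rw [sum_congr rfl hind, sum_const, nsmul_eq_mul]
  rw [← h1, sum_comm, sum_congr rfl (fun σ _ => hperm σ), sum_const, card_univ, nsmul_eq_mul,
    hcard]

/-- a sum over the conjugates is a sum over the places of `K(x)` with the local degrees -/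
theorem place_sum [IsGalois K E] {x : L} (hx : IntermediateField.adjoin K {x} = ⊤) {v : Pl K}
    {u : Pl E} (h : Ov v u) (Φ : Pl L → ℝ) (G : E → ℝ)
    (hG : ∀ σ : E ≃ₐ[K] E, ∀ w, Ov w (pull σ u) → G (σ (algebraMap L E x)) = Φ w) :
    ∑ y ∈ cj K (algebraMap L E x), G y = ∑ w ∈ ab L v, nn v w * Φ w := by
  classical
  choose bel hbel using fun u : Pl E => exists_below (K := L) u
  have hcj : ((cj K (algebraMap L E x)).card : ℝ) = finrank K L := by
    rw [card_cj, minpoly.algebraMap_eq (algebraMap L E).injective]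
    have h1 := IntermediateField.adjoin.finrank (K := K) (x := x)
      (Algebra.IsIntegral.isIntegral x)
    rw [hx, IntermediateField.finrank_top'] at h1
    rw [h1]
  have h1 := root_sum (K := K) (algebraMap L E x) G
  have h2 : ∑ σ : E ≃ₐ[K] E, G (σ (algebraMap L E x)) =
      ∑ σ : E ≃ₐ[K] E, Φ (bel (pull σ u)) :=
    sum_congr rfl fun σ _ => hG σ _ (hbel _)
  rw [h2, gal_sum h (fun u' => Φ (bel u')), ← sum_tower (L := L) v, hcj,
    ← finrank_mul_finrank K L E] at h1
  have h3 : ∀ w ∈ ab L v, ∑ u' ∈ ab E w, nn v u' * Φ (bel u') =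
      finrank L E * (nn v w * Φ w) := by
    intro w hw
    have h4 : ∀ u' ∈ ab E w, nn v u' * Φ (bel u') = nn w u' * (nn v w * Φ w) := by
      intro u' hu'
      rw [ov_unique (hbel u') (mem_ab.1 hu'), nn_mul (mem_ab.1 hw) (mem_ab.1 hu')]
      ring
    rw [sum_congr rfl h4, ← sum_mul, sum_nn]
  rw [sum_congr rfl h3, ← mul_sum] at h1
  push_cast at h1
  have hL : (0 : ℝ) < finrank K L := by exact_mod_cast (finrank_pos : 0 < finrank K L)
  have hE : (0 : ℝ) < finrank L E := by exact_mod_cast (finrank_pos : 0 < finrank L E)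
  rw [mul_assoc] at h1
  have h5 := mul_left_cancel₀ hL.ne' h1
  exact (mul_left_cancel₀ hE.ne' h5).symm

lemma prx_ext {v : Pl K} {w : Pl L} {u : Pl E} (h1 : Ov v w) (h2 : Ov w u) (a : K) (x : L) :
    prx v u a (algebraMap L E x) = prx v w a x := by
  unfold prx
  have hpos : ∀ y : L, wt u * Real.log (av u (algebraMap L E y)) =
    nn w u * (wt w * Real.log (av w y)) := fun y => nn_ext h2 y
  have hmax : wt u * Real.log (max 1 (av u (algebraMap L E x))) =
      nn w u * (wt w * Real.log (max 1 (av w x))) := by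
    have e : ∀ t : ℝ, 0 ≤ t → Real.log (max 1 t) = max 0 (Real.log t) := by
      intro t ht
      rcases le_total 1 t with h | h
      · rw [max_eq_right h, max_eq_right (Real.log_nonneg h)]
      · rw [max_eq_left h, Real.log_one, max_eq_left]
        exact Real.log_nonpos ht h
    rw [e _ ((av u).nonneg _), e _ ((av w).nonneg _), pos_ext h2]
  have e3 : algebraMap K E a = algebraMap L E (algebraMap K L a) :=
    IsScalarTower.algebraMap_apply K L E a
  rw [e3, ← map_sub, mul_sub, hpos, hmax, nn_mul h1 h2, ← mul_sub, mul_sub (wt w), mul_comm (nn v w)]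
  have : nn w u ≠ 0 := by
    have := one_le_nn h2
    linarith
  rw [mul_div_mul_left _ _ this]

lemma prx_pull {v : Pl K} {u : Pl E} (h : Ov v u) (σ : E ≃ₐ[K] E) (a : K) (y : E) :
    prx v (pull σ u) a y = prx v u a (σ y) := by
  unfold prx
  rw [pull_wt, pull_nn σ h, pull_av, pull_av, map_sub, σ.commutes]

/-- the sum over the pairs of conjugates -/
theorem pair_sum [IsGalois K E] {x : L} (hx : IntermediateField.adjoin K {x} = ⊤) {v : Pl K}
    {u : Pl E} (h : Ov v u) (a : K) :
    ∑ y ∈ cj K (algebraMap L E x), ∑ z ∈ cj K (algebraMap L E x),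
      min (prx v u a y) (prx v u a z) =
    ∑ w ∈ ab L v, ∑ w' ∈ ab L v, nn v w * nn v w' * min (prx v w a x) (prx v w' a x) := by
  have h1 : ∀ t : ℝ, ∑ z ∈ cj K (algebraMap L E x), min t (prx v u a z) =
      ∑ w' ∈ ab L v, nn v w' * min t (prx v w' a x) := by
    intro t
    refine place_sum hx h (fun w => min t (prx v w a x)) (fun z => min t (prx v u a z)) ?_
    intro σ w hw
    rw [← prx_pull h, ← prx_ext (ov_tower (pull_ov σ h) hw) hw]
  simp only [h1]
  have h2 := place_sum hx h (fun w => ∑ w' ∈ ab L v, nn v w' * min (prx v w a x) (prx v w' a x))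
    (fun y => ∑ w' ∈ ab L v, nn v w' * min (prx v u a y) (prx v w' a x)) (by
      intro σ w hw
      rw [← prx_pull h, ← prx_ext (ov_tower (pull_ov σ h) hw) hw])
  rw [h2]
  refine sum_congr rfl fun w _ => ?_
  rw [mul_sum]
  exact sum_congr rfl fun w' _ => by ring

/-- the sum over the conjugates -/
theorem single_sum [IsGalois K E] {x : L} (hx : IntermediateField.adjoin K {x} = ⊤) {v : Pl K}
    {u : Pl E} (h : Ov v u) (a : K) :
    ∑ y ∈ cj K (algebraMap L E x), prx v u a y = ∑ w ∈ ab L v, nn v w * prx v w a x := by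
  refine place_sum hx h (fun w => prx v w a x) (fun y => prx v u a y) ?_
  intro σ w hw
  rw [← prx_pull h, ← prx_ext (ov_tower (pull_ov σ h) hw) hw]

end tower

end Pool.Agent.H430.Cl
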