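import Pool.Agent.H430.Cl.Disc

/-!
The product formula and the final inequality.
-/

set_option autoImplicit false

namespace Pool.Agent.H430.Cl

open Finset NumberField IsDedekindDomain Height Module Polynomial
open Pool.Agent.W180.OP (Pl av wt fv nrm wt_nonneg le_nrm exists_nrm)
open Pool.Agent.NH28 (Ov nn ab mem_ab sum_nn one_le_nn nn_ext nn_nonneg exists_below ov_unique
  sum_split height_sum prod_formula fab mem_fab nrm_support)

/-- the product formula -/
lemma prod_pl {K : Type} [Field K] [NumberField K] {d : K} (hd : d ≠ 0) :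
    ∃ T0 : Finset (Pl K), (∀ v, v ∉ T0 → wt v * Real.log (av v d) = 0) ∧
      ∀ T, T0 ⊆ T → ∑ v ∈ T, wt v * Real.log (av v d) = 0 := by
  classical
  have hx : (![d] : Fin 1 → K) ≠ 0 := by
    intro h
    exact hd (congrFun h 0)
  have hn : ∀ v : HeightOneSpectrum (𝓞 K), nrm (fv v) ![d] = fv v d := by
    intro v
    obtain ⟨j, hj⟩ := exists_nrm (fv v) one_pos ![d]
    rw [← hj]
    fin_cases j
    rfl
  set F := (nrm_support hx).toFinset with hF
  have hmem : ∀ v, v ∈ F ↔ fv v d ≠ 1 := by
    intro v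
    rw [hF, Set.Finite.mem_toFinset, Set.mem_ofPred_eq, hn]
  refine ⟨univ.image Sum.inl ∪ F.image Sum.inr, ?_, fun T hT => ?_⟩
  · intro v hv
    rw [mem_union, not_or] at hv
    cases v with
    | inl v => exact absurd (mem_image_of_mem _ (mem_univ v)) hv.1
    | inr v =>
      have h1 : v ∉ F := fun h => hv.2 (mem_image_of_mem _ h)
      rw [hmem, not_not] at h1
      show wt (Sum.inr v : Pl K) * Real.log (fv v d) = 0
      rw [h1, Real.log_one, mul_zero]
  · have hinf : ∀ v : InfinitePlace K, (Sum.inl v : Pl K) ∈ T := fun v =>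
      hT (mem_union_left _ (mem_image_of_mem _ (mem_univ v)))
    have hfin : ∀ v ∈ F, (Sum.inr v : Pl K) ∈ T := fun v hv =>
      hT (mem_union_right _ (mem_image_of_mem _ hv))
    have h1 := prod_formula hd T.toRight (fun v hv => by
      rw [mem_toRight]
      exact hfin v ((hmem v).2 hv))
    rw [← toLeft_disjSum_toRight (u := T), sum_disjSum]
    have h2 : T.toLeft = univ := by
      ext v
      rw [mem_toLeft]
      simp [hinf v]
    rw [h2, ← h1]
    congr 1
    exact sum_congr rfl fun v _ => one_mul _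

/-- the height as a sum over the places of `K` -/
lemma height_pl {K L : Type} [Field K] [NumberField K] [Field L] [NumberField L] [Algebra K L]
    (x : L) : ∃ T0 : Finset (Pl K),
      (∀ v, v ∉ T0 → ∑ w ∈ ab L v, wt w * Real.log (max 1 (av w x)) = 0) ∧
      ∀ T, T0 ⊆ T → ∑ v ∈ T, ∑ w ∈ ab L v, wt w * Real.log (max 1 (av w x)) =
        logHeight ![1, x] := by
  classical
  have hX0 : (![1, x] : Fin 2 → L) ≠ 0 := by
    intro h
    have := congrFun h 0
    simp at this
  choose bel hbel using fun u : Pl L => exists_below (K := K) u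
  have hb : ∀ w, ∀ u ∈ ab L w, bel u = w := fun w u hu => ov_unique (hbel u) (mem_ab.1 hu)
  set F := (nrm_support hX0).toFinset with hF
  have hmem : ∀ v, v ∈ F ↔ nrm (fv v) ![1, x] ≠ 1 := by
    intro v
    rw [hF, Set.Finite.mem_toFinset, Set.mem_ofPred_eq]
  refine ⟨univ.image Sum.inl ∪ F.image (fun w => bel (Sum.inr w)), ?_, fun T hT => ?_⟩
  · intro v hv
    rw [mem_union, not_or] at hv
    refine sum_eq_zero fun w hw => ?_
    cases v with
    | inl v => exact absurd (mem_image_of_mem _ (mem_univ v)) hv.1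
    | inr v =>
      cases w with
      | inl w => exact (mem_ab.1 hw).elim
      | inr w =>
        have h1 : w ∉ F := fun h => hv.2 (by
          rw [← hb _ _ hw]
          exact mem_image_of_mem (fun w => bel (Sum.inr w)) h)
        rw [hmem, not_not, nrm_line] at h1
        show wt (Sum.inr w : Pl L) * Real.log (max 1 (fv w x)) = 0
        rw [h1, Real.log_one, mul_zero]
  · have hinf : ∀ v : InfinitePlace K, (Sum.inl v : Pl K) ∈ T := fun v =>
      hT (mem_union_left _ (mem_image_of_mem _ (mem_univ v)))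
    have h1 := height_sum hX0 (fab L T) (fun w hw => by
      rw [mem_fab]
      exact ⟨bel (Sum.inr w), hT (mem_union_right _
        (mem_image_of_mem (fun w => bel (Sum.inr w)) ((hmem w).2 hw))), hbel _⟩)
    rw [sum_split T hinf, h1]
    congr 1
    · refine sum_congr rfl fun w _ => ?_
      rw [nrm_line]
      rfl
    · refine sum_congr rfl fun w _ => ?_
      rw [nrm_line]
      exact one_mul _

/-- the sum of the discriminant terms outside `S` -/
lemma dsc_sum {K L : Type} [Field K] [NumberField K] [Field L] [NumberField L] [Algebra K L]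
    (x : L) (hd : (minpoly K x).discr ≠ 0) (S : Finset (Pl K)) :
    ∑ᶠ v ∈ ((S : Set (Pl K))ᶜ), dsc v x =
      (2 * finrank K L - 2) * logHeight ![1, x] - ∑ v ∈ S, dsc v x := by
  classical
  obtain ⟨T1, h1, h1'⟩ := prod_pl hd
  obtain ⟨T2, h2, h2'⟩ := height_pl (K := K) x
  set T : Finset (Pl K) := T1 ∪ T2 ∪ S with hT
  have hz : ∀ v, v ∉ T → dsc v x = 0 := by
    intro v hv
    rw [hT, mem_union, mem_union, not_or, not_or] at hv
    unfold dsc
    rw [h1 v hv.1.1, h2 v hv.1.2]
    ring
  have htot : ∑ v ∈ T, dsc v x = (2 * finrank K L - 2) * logHeight ![1, x] := by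
    unfold dsc
    rw [sum_sub_distrib, ← mul_sum, h1' T (by
      intro v hv
      exact mem_union_left _ (mem_union_left _ hv)), h2' T (by
      intro v hv
      exact mem_union_left _ (mem_union_right _ hv)), sub_zero]
  have hsub : S ⊆ T := subset_union_right
  rw [finsum_mem_eq_sum_of_inter_support_eq (t := T \ S)]
  · rw [← htot, ← sum_sdiff hsub]
    ring
  · ext v
    simp only [Set.mem_inter_iff, Set.mem_compl_iff, mem_coe, Function.mem_support, mem_sdiff]
    constructor
    · rintro ⟨h3, h4⟩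
      refine ⟨⟨?_, h3⟩, h4⟩
      by_contra h5
      exact h4 (hz v h5)
    · rintro ⟨⟨_, h3⟩, h4⟩
      exact ⟨h3, h4⟩

open scoped Classical in
lemma sum_pairs {K E : Type} [Field K] [Field E] [Algebra K E] (x : E) (f : E → E → ℝ) :
    ∑ y ∈ cj K x, ∑ z ∈ cj K x, f y z = ∑ y ∈ cj K x, f y y + ∑ p ∈ cjp K x, f p.1 p.2 := by
  rw [sum_cjp, ← sum_add_distrib]
  exact sum_congr rfl fun y hy => (add_sum_erase _ _ hy).symm

/-- the cluster inequality in terms of the discriminant -/
theorem vojta_of_clusters {K L E : Type} [Field K] [NumberField K] [Field L] [NumberField L]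
    [Field E] [NumberField E] [Algebra K L] [Algebra L E] [Algebra K E] [IsScalarTower K L E]
    [IsGalois K E] {q : ℕ} (a : Fin q → K) {x : L} (hx : IntermediateField.adjoin K {x} = ⊤)
    (S : Finset (Pl K)) (u : Pl K → Pl E) (hu : ∀ v ∈ S, Ov v (u v)) (ε C : ℝ)
    (h : ∑ v ∈ S, ∑ i, ∑ w ∈ ab L v, ∑ w' ∈ ab L v,
          nn v w * nn v w' * min (prx v w (a i) x) (prx v w' (a i) x) ≤
          (2 * finrank K L + ε) * logHeight ![1, x] + C) :
    ∑ v ∈ S, ∑ i, ∑ w ∈ ab L v, nn v w * prx v w (a i) x ≤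
      (2 + ε) * logHeight ![1, x] + ∑ᶠ v ∈ ((S : Set (Pl K))ᶜ), dsc v x +
      ∑ v ∈ S, ∑ p ∈ cjp K (algebraMap L E x), (rho v (u v) p.1 p.2 -
        ∑ i, min (prx v (u v) (a i) p.1) (prx v (u v) (a i) p.2)) + C := by
  classical
  have hd : (minpoly K x).discr ≠ 0 := by
    have := discr_ne_zero (K := K) (algebraMap L E x)
    rwa [minpoly.algebraMap_eq (algebraMap L E).injective] at this
  rw [dsc_sum x hd S]
  have hloc : ∀ v ∈ S, ∑ i, ∑ w ∈ ab L v, nn v w * prx v w (a i) x =
      ∑ i, ∑ w ∈ ab L v, ∑ w' ∈ ab L v,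
          nn v w * nn v w' * min (prx v w (a i) x) (prx v w' (a i) x) - dsc v x +
      ∑ p ∈ cjp K (algebraMap L E x), (rho v (u v) p.1 p.2 -
        ∑ i, min (prx v (u v) (a i) p.1) (prx v (u v) (a i) p.2)) := by
    intro v hv
    have h1 : ∀ i, ∑ w ∈ ab L v, ∑ w' ∈ ab L v,
          nn v w * nn v w' * min (prx v w (a i) x) (prx v w' (a i) x) =
        ∑ w ∈ ab L v, nn v w * prx v w (a i) x + ∑ p ∈ cjp K (algebraMap L E x),
          min (prx v (u v) (a i) p.1) (prx v (u v) (a i) p.2) := by
      intro i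
      rw [← pair_sum hx (hu v hv), ← single_sum hx (hu v hv),
        sum_pairs (algebraMap L E x) (fun y z => min (prx v (u v) (a i) y) (prx v (u v) (a i) z))]
      congr 1
      exact sum_congr rfl fun y _ => min_self _
    rw [sum_congr rfl (fun i _ => h1 i), sum_add_distrib, dsc_eq hx (hu v hv), sum_comm (s := univ)
      (t := cjp K (algebraMap L E x)), sum_sub_distrib]
    ring
  rw [sum_congr rfl hloc, sum_add_distrib, sum_sub_distrib]
  linarith

end Pool.Agent.H430.Cl
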