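import Pool.Agent.H430.Cl.Place

/-!
The global estimate.
-/

set_option autoImplicit false

namespace Pool.Agent.H430.Cl

open Finset NumberField IsDedekindDomain Height Module Polynomial
open Pool.Agent.W180.OP (Pl av wt fv nrm wt_nonneg le_nrm exists_nrm)
open Pool.Agent.NH28 (Ov nn ab mem_ab sum_nn one_le_nn nn_ext nn_nonneg trace_pl ThetaP sch_rat
  exists_below ov_unique height_le_sum trace_fin)

section
variable {K L : Type} [Field K] [NumberField K] [Field L] [NumberField L] [Algebra K L] {q : ℕ}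

/-- the shifted local terms -/
noncomputable def ell (v : Pl K) (a : Fin q → K) (c0 : ℝ) (x : L) (e : Pl L → Fin q)
    (w : Pl L) : ℝ := prx v w (a (e w)) x + c0

/-- the cluster sums -/
noncomputable def Gc (v : Pl K) (a : Fin q → K) (c0 : ℝ) (x : L) (e : Pl L → Fin q)
    (w : Pl L) : ℝ := ∑ w' ∈ (ab L v).filter (fun w' => e w' = e w),
        nn v w' * min (ell v a c0 x e w) (ell v a c0 x e w')

/-- the quadratic cluster sums -/
noncomputable def Qc (v : Pl K) (a : Fin q → K) (c0 : ℝ) (x : L) (e : Pl L → Fin q) : ℝ :=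
  ∑ i, ∑ w ∈ (ab L v).filter (fun w => e w = i), ∑ w' ∈ (ab L v).filter (fun w => e w = i),
    nn v w * nn v w' * min (ell v a c0 x e w) (ell v a c0 x e w')

lemma Qc_eq (v : Pl K) (a : Fin q → K) (c0 : ℝ) (x : L) (e : Pl L → Fin q) :
    ∑ w ∈ ab L v, nn v w * Gc v a c0 x e w = Qc v a c0 x e := by
  rw [← sum_fiberwise_of_maps_to (s := ab L v) (t := univ) (g := e) (fun _ _ => mem_univ _)]
  refine sum_congr rfl fun i _ => sum_congr rfl fun w hw => ?_
  have h1 := (mem_filter.1 hw).2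
  unfold Gc
  rw [h1, mul_sum]
  exact sum_congr rfl fun w' _ => by ring

lemma Gc_ge (v : Pl K) (a : Fin q → K) (c0 : ℝ) (x : L) (e : Pl L → Fin q)
    (h : ∀ w ∈ ab L v, 0 ≤ ell v a c0 x e w) {w : Pl L} (hw : w ∈ ab L v) :
    ell v a c0 x e w ≤ Gc v a c0 x e w := by
  have h1 : nn v w * min (ell v a c0 x e w) (ell v a c0 x e w) ≤ Gc v a c0 x e w :=
    single_le_sum (f := fun w' => nn v w' * min (ell v a c0 x e w) (ell v a c0 x e w'))
      (fun w' hw' => mul_nonneg (nn_nonneg _ _) (le_min (h w hw) (h w' (mem_filter.1 hw').1)))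
      (mem_filter.2 ⟨hw, rfl⟩)
  rw [min_self] at h1
  exact (le_mul_of_one_le_left (h w hw) (one_le_nn (mem_ab.1 hw))).trans h1

lemma Gc_le (v : Pl K) (a : Fin q → K) (c0 : ℝ) (x : L) (e : Pl L → Fin q)
    (h : ∀ w ∈ ab L v, 0 ≤ ell v a c0 x e w) {w : Pl L} (hw : w ∈ ab L v) :
    Gc v a c0 x e w ≤ Qc v a c0 x e := by
  rw [← Qc_eq]
  have h1 : ∀ w ∈ ab L v, 0 ≤ Gc v a c0 x e w := fun w hw => (h w hw).trans (Gc_ge v a c0 x e h hw)
  have h2 := single_le_sum (f := fun w => nn v w * Gc v a c0 x e w)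
    (fun w hw => mul_nonneg (nn_nonneg _ _) (h1 w hw)) hw
  exact (le_mul_of_one_le_left (h1 w hw) (one_le_nn (mem_ab.1 hw))).trans h2

lemma ell_le (v : Pl K) (a : Fin q → K) (c0 : ℝ) (x : L) (e : Pl L → Fin q)
    (h : ∀ w ∈ ab L v, 0 ≤ ell v a c0 x e w) :
    ∑ w ∈ ab L v, nn v w * ell v a c0 x e w ≤ Qc v a c0 x e := by
  rw [← Qc_eq]
  exact sum_le_sum fun w hw => mul_le_mul_of_nonneg_left (Gc_ge v a c0 x e h hw) (nn_nonneg _ _)

lemma Qc_nonneg (v : Pl K) (a : Fin q → K) (c0 : ℝ) (x : L) (e : Pl L → Fin q)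
    (h : ∀ w ∈ ab L v, 0 ≤ ell v a c0 x e w) : 0 ≤ Qc v a c0 x e :=
  (sum_nonneg fun w hw => mul_nonneg (nn_nonneg _ _) (h w hw)).trans (ell_le v a c0 x e h)

end

/-- the final computation -/
lemma final_cl {h hz X Y r r' M C1 C2 C4 Cp ε' Sg : ℝ}
    (hr : 1 ≤ r) (hr' : 1 ≤ r') (hrr : r' ≤ r) (hh : 0 ≤ h) (hM : 0 ≤ M) (hX : 0 ≤ X)
    (hC1 : 0 ≤ C1) (hC2 : 0 ≤ C2) (hC40 : 0 ≤ C4) (hCp0 : 0 ≤ Cp)
    (hY : Y = M * h + C1 * (h + 1) + C2)
    (hε' : ε' = 1 / (r ^ 2 * (M + C1 + 1)))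
    (hSg : Sg * r' = Y - M / r' * X)
    (hz3 : hz ≤ Sg + M / r' * X + Cp)
    (hmain : 0 ≤ ε' * hz + C4 + ((M + 1) * (Sg + Cp) +
      (M / r' * X + (M / r') ^ 2 / 2 * X))) :
    (M ^ 2 / 2 - M * r - 1) * X ≤ ((M + 1) * r' * (M + C1) + 1) * h +
      ((M + 1) * r * (C1 + C2) + r ^ 2 * (C4 + (M + 1) * Cp) + C1 + C2 + Cp) := by
  have hε0 : 0 < ε' := by rw [hε']; positivity
  have hr'0 : 0 < r' := by linarith
  have hY0 : 0 ≤ Y := by rw [hY]; positivity
  have hSgY : Sg ≤ Y := by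
    have h1 : Sg * r' ≤ Y := by
      rw [hSg]
      have : 0 ≤ M / r' * X := by positivity
      linarith
    rcases le_total 0 Sg with h2 | h2
    · exact (le_mul_of_one_le_right h2 hr').trans h1
    · linarith
  have hMr : M / r' * X ≤ M * X := by
    refine mul_le_mul_of_nonneg_right ?_ hX
    exact div_le_self hM hr'
  have hzle : hz ≤ Y + M * X + Cp := by linarith
  have hr2 : r' ^ 2 ≤ r ^ 2 := by nlinarith
  -- the error term
  have herr : r' ^ 2 * (ε' * hz) ≤ h + X + (C1 + C2 + Cp) := by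
    have h1 : r' ^ 2 * (ε' * hz) ≤ r ^ 2 * (ε' * (Y + M * X + Cp)) := by
      have h0 : 0 ≤ Y + M * X + Cp := by positivity
      have h2 : ε' * hz ≤ ε' * (Y + M * X + Cp) := mul_le_mul_of_nonneg_left hzle hε0.le
      have h3 : r' ^ 2 * (ε' * hz) ≤ r' ^ 2 * (ε' * (Y + M * X + Cp)) :=
        mul_le_mul_of_nonneg_left h2 (by positivity)
      exact h3.trans (mul_le_mul_of_nonneg_right hr2 (by positivity))
    refine h1.trans ?_
    rw [hε']
    have h4 : r ^ 2 * (1 / (r ^ 2 * (M + C1 + 1)) * (Y + M * X + Cp)) =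
        (Y + M * X + Cp) / (M + C1 + 1) := by
      field_simp
    rw [h4, div_le_iff₀ (by positivity), hY]
    have h5 : (h + X + (C1 + C2 + Cp)) * (M + C1 + 1) =
      M * h + C1 * (h + 1) + C2 + M * X + Cp + (h + X * (C1 + 1) + C1 * (M + C1) +
        C2 * (M + C1) + Cp * (M + C1)) := by ring
    rw [h5]
    have h6 : 0 ≤ h + X * (C1 + 1) + C1 * (M + C1) + C2 * (M + C1) + Cp * (M + C1) := by
      positivity
    linarith
  have h1 := mul_nonneg (by positivity : (0 : ℝ) ≤ r' ^ 2) hmain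
  have h2 : r' ^ 2 * (ε' * hz + C4 + ((M + 1) * (Sg + Cp) +
      (M / r' * X + (M / r') ^ 2 / 2 * X))) = r' ^ 2 * (ε' * hz) + r' ^ 2 * C4 +
      (M + 1) * (r' * (Sg * r')) + (M + 1) * (r' ^ 2 * Cp) + M * r' * X + M ^ 2 / 2 * X := by
    field_simp
    ring
  rw [h2, hSg] at h1
  have h3 : r' * (Y - M / r' * X) = r' * Y - M * X := by
    field_simp
  rw [h3] at h1
  have h4 : r' ^ 2 * C4 ≤ r ^ 2 * C4 := mul_le_mul_of_nonneg_right hr2 hC40
  have h5 : (M + 1) * (r' ^ 2 * Cp) ≤ (M + 1) * (r ^ 2 * Cp) :=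
    mul_le_mul_of_nonneg_left (mul_le_mul_of_nonneg_right hr2 hCp0) (by linarith)
  have h6 : M * r' * X ≤ M * r * X :=
    mul_le_mul_of_nonneg_right (mul_le_mul_of_nonneg_left hrr hM) hX
  have h7 : (M + 1) * (r' * Y) ≤ (M + 1) * r' * (M + C1) * h + (M + 1) * r * (C1 + C2) := by
    have e1 : (M + 1) * (r' * Y) = (M + 1) * r' * (M + C1) * h + (M + 1) * r' * (C1 + C2) := by
      rw [hY]; ring
    rw [e1]
    have : (M + 1) * r' * (C1 + C2) ≤ (M + 1) * r * (C1 + C2) :=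
      mul_le_mul_of_nonneg_right (mul_le_mul_of_nonneg_left hrr (by linarith)) (by linarith)
    linarith
  have e8 : (M + 1) * (r' * Y - M * X) = (M + 1) * (r' * Y) - M ^ 2 * X - M * X := by ring
  rw [e8] at h1
  have e9 : (M ^ 2 / 2 - M * r - 1) * X = M ^ 2 * X - M ^ 2 / 2 * X - M * r * X - X := by ring
  have e10 : ((M + 1) * r' * (M + C1) + 1) * h = (M + 1) * r' * (M + C1) * h + h := by ring
  have e11 : r ^ 2 * (C4 + (M + 1) * Cp) = r ^ 2 * C4 + (M + 1) * (r ^ 2 * Cp) := by ring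
  have h12 : 0 ≤ M * X := by positivity
  rw [e9, e10, e11]
  linarith

theorem glob_cl {K : Type} [Field K] [NumberField K] {q : ℕ} (hq : 0 < q) (a : Fin q → K)
    (r : ℕ) (hr : 1 ≤ r) (M : ℕ) (C1 : ℝ) (hC1 : ThetaP K 2 r C1) :
    ∃ Φ : K[X], Φ ≠ 0 ∧ (∀ i, Φ.eval (a i) = 0) ∧ ∀ S : Finset (Pl K),
      (∀ v : InfinitePlace K, Sum.inl v ∈ S) → ∀ c0 : ℝ, 0 ≤ c0 → ∃ C : ℝ, 0 ≤ C ∧
      ∀ (L : Type) [Field L] [NumberField L] [Algebra K L], finrank K L ≤ r → ∀ x : L,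
      IntermediateField.adjoin K {x} = ⊤ → aeval x Φ ≠ 0 →
      (∀ v ∈ S, ∀ w ∈ ab L v, ∀ i, 0 ≤ prx v w (a i) x + c0) → ∀ e : Pl L → Fin q,
      ((M : ℝ) ^ 2 / 2 - M * r - 1) * ∑ v ∈ S, Qc v a c0 x e ≤
        (((M : ℝ) + 1) * finrank K L * (M + C1) + 1) * logHeight ![1, x] + C := by
  classical
  obtain ⟨Z0, hZ0, hsch⟩ := sch_rat (k := K) (N := M + 1) (by omega)
    (fun (f : Ex q M) (j : Fin (M + 1)) => (gp a fun i => (f.1 i : ℕ)).coeff j)
  set pz : (Fin (M + 1) → K) → K[X] := fun z => ∑ j, C (z j) * X ^ (j : ℕ) with hpz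
  have hpzc : ∀ z (j : Fin (M + 1)), (pz z).coeff j = z j := by
    intro z j
    simp only [hpz, finsetSum_coeff, coeff_C_mul, coeff_X_pow]
    rw [sum_eq_single j]
    · simp
    · intro b _ hb
      rw [if_neg (fun h => hb (Fin.ext h.symm)), mul_zero]
    · simp
  have hpzd : ∀ z, (pz z).natDegree ≤ M := by
    intro z
    refine natDegree_sum_le_of_forall_le _ _ fun j _ => ?_
    refine (natDegree_C_mul_X_pow_le _ _).trans ?_
    have := j.2
    omega
  have hpz0 : ∀ z ∈ Z0, pz z ≠ 0 := by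
    intro z hz h0
    apply hZ0 z hz
    funext j
    rw [← hpzc z j, h0]
    simp
  refine ⟨X * (∏ i, (X - C (a i))) * ∏ z ∈ Z0, pz z, ?_, ?_, ?_⟩
  · refine mul_ne_zero (mul_ne_zero X_ne_zero ?_) ?_
    · exact prod_ne_zero_iff.2 fun i _ => X_sub_C_ne_zero _
    · exact prod_ne_zero_iff.2 fun z hz => hpz0 z hz
  · intro i
    rw [eval_mul, eval_mul, eval_prod, prod_eq_zero (mem_univ i) (by simp), mul_zero, zero_mul]
  intro S hS c0 hc0
  -- the multiplier
  set Ix := {z // z ∈ Z0} ⊕ Ex q M ⊕ Fin (M + 1) with hIx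
  set Pf : Ix → K[X] := Sum.elim (fun z => pz z.1) (Sum.elim
    (fun f => gp a fun i => (f.1 i : ℕ)) (fun j => X ^ (j : ℕ))) with hPf
  have hPfd : ∀ i, (Pf i).natDegree ≤ M := by
    rintro (z | f | j)
    · exact hpzd _
    · show (gp a fun i => (f.1 i : ℕ)).natDegree ≤ M
      rw [gp_natDegree]
      exact f.2
    · show (X ^ (j : ℕ) : K[X]).natDegree ≤ M
      rw [natDegree_X_pow]
      have := j.2
      omega
  set qn : ℕ := Fintype.card Ix with hqn
  have hq0 : 0 < qn := Fintype.card_pos_iff.2 ⟨Sum.inr (Sum.inr 0)⟩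
  set eqv := Fintype.equivFin Ix with heqv
  obtain ⟨C2, hC20, hθ⟩ := hC1.2 M qn hq0 S hS
  choose Cv hCv0 hCv using fun v : Pl K => place_cl hq a v r M c0 hc0
  choose ct hct0 hct using fun v : Pl K => trace_pl v r
  set Cp : ℝ := ∑ v ∈ S, (Cv v + ct v) with hCp
  have hCp0 : 0 ≤ Cp := sum_nonneg fun v _ => add_nonneg (hCv0 v) (hct0 v)
  have hC10 := hC1.1
  have hr1 : (1 : ℝ) ≤ r := by exact_mod_cast hr
  set ε' : ℝ := 1 / ((r : ℝ) ^ 2 * (M + C1 + 1)) with hε'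
  have hε'0 : 0 < ε' := by positivity
  obtain ⟨C4, hC40, hsch'⟩ := hsch S ε' hε'0
  refine ⟨((M : ℝ) + 1) * r * (C1 + C2) + r ^ 2 * (C4 + (M + 1) * Cp) + C1 + C2 + Cp,
    by positivity, ?_⟩
  intro L _ _ _ hrL x hadj hΦ hpos e
  have hx0 : x ≠ 0 := by
    rintro rfl
    apply hΦ
    simp
  have hxa : ∀ i, x ≠ algebraMap K L (a i) := by
    intro i hi
    apply hΦ
    rw [map_mul, map_mul, map_prod, prod_eq_zero (mem_univ i) (by simp [hi]), mul_zero, zero_mul]
  have hxz : ∀ z ∈ Z0, aeval x (pz z) ≠ 0 := by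
    intro z hz h0
    apply hΦ
    rw [map_mul, map_prod, prod_eq_zero hz h0, mul_zero]
  have hPfx : ∀ i, aeval x (Pf i) ≠ 0 := by
    rintro (z | f | j)
    · exact hxz z.1 z.2
    · show aeval x (gp a fun i => (f.1 i : ℕ)) ≠ 0
      rw [gp_aeval]
      exact prod_ne_zero_iff.2 fun i _ => pow_ne_zero _ (sub_ne_zero.2 (hxa i))
    · show aeval x (X ^ (j : ℕ) : K[X]) ≠ 0
      rw [map_pow, aeval_X]
      exact pow_ne_zero _ hx0
  have hX0 : (![1, x] : Fin 2 → L) ≠ 0 := by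
    intro h
    have := congrFun h 0
    simp at this
  have hadj2 : IntermediateField.adjoin K {z | ∃ i j, z = (![1, x] : Fin 2 → L) i / ![1, x] j} =
      ⊤ := by
    rw [eq_top_iff, ← hadj]
    refine IntermediateField.adjoin.mono K _ _ ?_
    rintro z hz
    rw [Set.mem_singleton_iff] at hz
    exact ⟨1, 0, by simp [hz]⟩
  have hell : ∀ v ∈ S, ∀ w ∈ ab L v, 0 ≤ ell v a c0 x e w := fun v hv w hw => hpos v hv w hw _
  set Xq : ℝ := ∑ v ∈ S, Qc v a c0 x e with hXq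
  have hXq0 : 0 ≤ Xq := sum_nonneg fun v hv => Qc_nonneg v a c0 x e (hell v hv)
  set h : ℝ := logHeight ![1, x] with hh
  have hh0 : 0 ≤ h := logHeight_nonneg _
  set r' : ℝ := (finrank K L : ℝ) with hr'
  have hr'1 : (1 : ℝ) ≤ r' := by
    have : 0 < finrank K L := finrank_pos
    rw [hr']
    exact_mod_cast this
  have hr'0 : 0 < r' := by linarith
  have hr'r : r' ≤ r := by
    rw [hr']
    exact_mod_cast hrL
  set sc : ℝ := (S.card : ℝ) with hsc
  obtain ⟨v0⟩ : Nonempty (InfinitePlace K) := inferInstance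
  have hsc1 : (1 : ℝ) ≤ sc := by
    have : 0 < S.card := card_pos.2 ⟨_, hS v0⟩
    rw [hsc]
    exact_mod_cast this
  set Y : ℝ := M * h + C1 * (h + 1) + C2 with hY
  set c : ℝ := (M : ℝ) / r' with hc
  have hc0' : 0 ≤ c := by positivity
  set g0 : ℝ := (Y - c * Xq) / (sc * r') with hg0
  have hg0' : sc * g0 * r' = Y - c * Xq := by
    rw [hg0]
    have : sc ≠ 0 := by linarith
    have : r' ≠ 0 := by linarith
    field_simp
  choose bel hbel using fun w : Pl L => exists_below (K := K) w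
  have hbelv : ∀ v, ∀ w ∈ ab L v, bel w = v := fun v w hw => ov_unique (hbel w) (mem_ab.1 hw)
  have hbeta : ∑ v ∈ S, ∑ w ∈ ab L v, nn (bel w) w * (g0 + c * Gc (bel w) a c0 x e w) = Y := by
    have h1 : ∀ v ∈ S, ∑ w ∈ ab L v, nn (bel w) w * (g0 + c * Gc (bel w) a c0 x e w) =
        r' * g0 + c * Qc v a c0 x e := by
      intro v _
      rw [hr', ← sum_nn L v, sum_mul, ← Qc_eq, mul_sum, ← sum_add_distrib]
      refine sum_congr rfl fun w hw => ?_
      rw [hbelv v w hw]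
      ring
    rw [sum_congr rfl h1, sum_add_distrib, sum_const, nsmul_eq_mul, ← mul_sum]
    have h2 : (S.card : ℝ) * (r' * g0) = sc * g0 * r' := by rw [hsc]; ring
    rw [h2, hg0']
    ring
  obtain ⟨θ, hθ1, hθ2, hθ3⟩ := hθ L hrL ![1, x] hX0 hadj2 (fun i => aeval x (Pf (eqv.symm i)))
    (fun i => hPfx _) (fun w => nn (bel w) w * (g0 + c * Gc (bel w) a c0 x e w))
    (le_of_eq hbeta.symm)
  have htr : ∀ i, Algebra.trace K L (θ * aeval x (Pf i)) ≠ 0 := fun i => by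
    have := hθ1 (eqv i)
    rwa [eqv.symm_apply_apply] at this
  have hθ0 : θ ≠ 0 := by
    rintro rfl
    apply htr (Sum.inr (Sum.inr 0))
    rw [zero_mul, map_zero]
  set z : Fin (M + 1) → K := fun j => Algebra.trace K L (θ * x ^ (j : ℕ)) with hz
  have hlin : ∀ P : K[X], P.natDegree ≤ M → Algebra.trace K L (θ * aeval x P) =
      ∑ j : Fin (M + 1), P.coeff j * z j := fun P hP => lin_trace M P hP x θ
  have hzj : ∀ j, z j ≠ 0 := fun j => by
    have h1 := htr (Sum.inr (Sum.inr j))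
    have h2 : aeval x (Pf (Sum.inr (Sum.inr j))) = x ^ (j : ℕ) := by
      show aeval x (X ^ (j : ℕ) : K[X]) = _
      rw [map_pow, aeval_X]
    rw [h2] at h1
    exact h1
  have hz0 : z ≠ 0 := fun h0 => hzj 0 (congrFun h0 _)
  have hθ2' : ∀ v ∈ S, ∀ w ∈ ab L v, wt w * Real.log (av w θ) +
      M * (wt w * Real.log (max 1 (av w x))) ≤ nn v w * (g0 + c * Gc v a c0 x e w) := by
    intro v hv w hw
    have h3 := hθ2 v hv w hw
    rw [nrm_line, hbelv v w hw] at h3
    exact h3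
  -- the coordinates
  have hcoord : ∀ v ∈ S, ∀ j, wt v * Real.log (av v (z j)) ≤ g0 + c * Qc v a c0 x e + ct v := by
    intro v hv j
    refine hct v L hrL (θ * x ^ (j : ℕ)) _ (fun w hw => ?_) (hzj j)
    have h1 := hθ2' v hv w hw
    have h2 : Real.log (av w (θ * x ^ (j : ℕ))) = Real.log (av w θ) + j * Real.log (av w x) := by
      rw [map_mul, map_pow, Real.log_mul ((av w).pos_iff.2 hθ0).ne'
        (pow_ne_zero _ ((av w).pos_iff.2 hx0).ne'), Real.log_pow]
    have hjM : ((j : ℕ) : ℝ) ≤ M := by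
      have := j.2
      exact_mod_cast (by omega : (j : ℕ) ≤ M)
    have h3 : (j : ℝ) * Real.log (av w x) ≤ M * Real.log (max 1 (av w x)) := by
      have h4 : Real.log (av w x) ≤ Real.log (max 1 (av w x)) :=
        Real.log_le_log ((av w).pos_iff.2 hx0) (le_max_right _ _)
      have h5 : 0 ≤ Real.log (max 1 (av w x)) := Real.log_nonneg (le_max_left _ _)
      exact (mul_le_mul_of_nonneg_left h4 (Nat.cast_nonneg _)).trans
        (mul_le_mul_of_nonneg_right hjM h5)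
    have h4 : wt w * Real.log (av w (θ * x ^ (j : ℕ))) ≤ wt w * Real.log (av w θ) +
        M * (wt w * Real.log (max 1 (av w x))) := by
      rw [h2, mul_add]
      have := mul_le_mul_of_nonneg_left h3 (wt_nonneg w)
      linarith
    refine (h4.trans h1).trans (mul_le_mul_of_nonneg_left ?_ (nn_nonneg _ _))
    have := mul_le_mul_of_nonneg_left (Gc_le v a c0 x e (hell v hv) hw) hc0'
    linarith
  have hkey : ∀ v, ∃ β : Fin (M + 1) → Ex q M, v ∈ S → LinearIndependent K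
      (fun (k : Fin (M + 1)) (j : Fin (M + 1)) => (gp a fun i => ((β k).1 i : ℕ)).coeff j) ∧
      ∑ k, wt v * Real.log (av v (Algebra.trace K L (θ * aeval x
        (gp a fun i => ((β k).1 i : ℕ))))) ≤ (M + 1) * (g0 + Cv v) +
        (c * ∑ w ∈ ab L v, nn v w * ell v a c0 x e w + c ^ 2 / 2 * Qc v a c0 x e) := by
    intro v
    by_cases hv : v ∈ S
    · obtain ⟨β, h1, h2⟩ := hCv v L hrL x hxa (hpos v hv) e θ g0 c hc0' (hθ2' v hv)
        (fun f => htr (Sum.inr (Sum.inl f)))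
      exact ⟨β, fun _ => ⟨h1, h2⟩⟩
    · exact ⟨fun _ => ⟨fun _ => 0, by simp⟩, fun h => absurd h hv⟩
  choose β hβ using hkey
  have hs1 := hsch' z hz0 (fun z' hz' => by
    have h1 := htr (Sum.inl ⟨z', hz'⟩)
    rw [hlin _ (hPfd _)] at h1
    have h2 : ∑ j : Fin (M + 1), (Pf (Sum.inl ⟨z', hz'⟩)).coeff j * z j = ∑ j, z' j * z j := by
      refine sum_congr rfl fun j _ => ?_
      congr 1
      exact hpzc z' j
    rw [h2] at h1
    exact h1) (fun f => by
    have h1 := htr (Sum.inr (Sum.inl f))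
    rw [hlin _ (hPfd _)] at h1
    exact h1) β (fun v hv => (hβ v hv).1)
  set hz' : ℝ := logHeight z with hhz
  have hsum1 : hz' ≤ ∑ v ∈ S, wt v * Real.log (nrm (av v) z) := by
    refine height_le_sum hz0 S hS fun v hv j => ?_
    refine trace_fin v _ fun w hw => ?_
    have h1 := hθ3 _ hv (Sum.inr w) (mem_ab.2 hw)
    rw [nrm_line] at h1
    have h2 : fv w (θ * x ^ (j : ℕ)) ≤ fv w θ * max 1 (fv w x) ^ M := by
      rw [map_mul, map_pow]
      refine mul_le_mul_of_nonneg_left ?_ ((fv w).nonneg _)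
      have hjM : (j : ℕ) ≤ M := by
        have := j.2
        omega
      exact (pow_le_pow_left₀ ((fv w).nonneg _) (le_max_right _ _) _).trans
        (pow_le_pow_right₀ (le_max_left _ _) hjM)
    exact h2.trans h1
  have hsum2 : ∀ v ∈ S, wt v * Real.log (nrm (av v) z) ≤ g0 + c * Qc v a c0 x e + ct v := by
    intro v hv
    obtain ⟨j, hj⟩ := exists_nrm (av v) (by omega : 0 < M + 1) z
    rw [← hj]
    exact hcoord v hv j
  have hCvs : 0 ≤ ∑ v ∈ S, Cv v := sum_nonneg fun v _ => hCv0 v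
  have hcts : 0 ≤ ∑ v ∈ S, ct v := sum_nonneg fun v _ => hct0 v
  have hCpe : Cp = ∑ v ∈ S, Cv v + ∑ v ∈ S, ct v := by rw [hCp, sum_add_distrib]
  have hz3 : hz' ≤ sc * g0 + c * Xq + Cp := by
    refine hsum1.trans ((sum_le_sum hsum2).trans ?_)
    rw [sum_add_distrib, sum_add_distrib, sum_const, nsmul_eq_mul, ← mul_sum]
    linarith
  have hmain : 0 ≤ ε' * hz' + C4 + (((M : ℝ) + 1) * (sc * g0 + Cp) +
      (c * Xq + c ^ 2 / 2 * Xq)) := by
    have h1 : ∑ v ∈ S, wt v * ∑ k, (Real.log (nrm (av v) z) -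
        Real.log (av v (∑ j : Fin (M + 1),
          (gp a fun i => ((β v k).1 i : ℕ)).coeff j * z j))) =
        ((M : ℝ) + 1) * ∑ v ∈ S, wt v * Real.log (nrm (av v) z) -
        ∑ v ∈ S, ∑ k, wt v * Real.log (av v (Algebra.trace K L (θ * aeval x
        (gp a fun i => ((β v k).1 i : ℕ))))) := by
      rw [mul_sum, ← sum_sub_distrib]
      refine sum_congr rfl fun v _ => ?_
      rw [sum_sub_distrib, sum_const, card_univ, Fintype.card_fin, nsmul_eq_mul, mul_sub, mul_sum]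
      congr 1
      · push_cast
        ring
      · refine sum_congr rfl fun k _ => ?_
        rw [hlin (gp a fun i => ((β v k).1 i : ℕ)) (hPfd (Sum.inr (Sum.inl (β v k))))]
    have h2 : ∑ v ∈ S, ∑ k, wt v * Real.log (av v (Algebra.trace K L (θ * aeval x
        (gp a fun i => ((β v k).1 i : ℕ))))) ≤
        ((M : ℝ) + 1) * (sc * g0 + Cp) + (c * Xq + c ^ 2 / 2 * Xq) := by
      refine (sum_le_sum fun v hv => (hβ v hv).2).trans ?_
      rw [sum_add_distrib, ← mul_sum, sum_add_distrib, sum_const, nsmul_eq_mul, sum_add_distrib,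
        ← mul_sum, ← mul_sum]
      have h3 : ∑ v ∈ S, ∑ w ∈ ab L v, nn v w * ell v a c0 x e w ≤ Xq :=
        sum_le_sum fun v hv => ell_le v a c0 x e (hell v hv)
      have h4 := mul_le_mul_of_nonneg_left h3 hc0'
      have h5 : ((M : ℝ) + 1) * (S.card * g0 + ∑ v ∈ S, Cv v) ≤ (M + 1) * (sc * g0 + Cp) := by
        refine mul_le_mul_of_nonneg_left ?_ (by positivity)
        rw [hCpe]
        linarith
      linarith
    have h3 : ((M : ℝ) + 1) * hz' ≤ (M + 1) * ∑ v ∈ S, wt v * Real.log (nrm (av v) z) :=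
      mul_le_mul_of_nonneg_left hsum1 (by positivity)
    rw [h1] at hs1
    push_cast at hs1
    linarith
  exact final_cl hr1 hr'1 hr'r hh0 (Nat.cast_nonneg M) hXq0 hC10 hC20 hC40 hCp0 hY hε' hg0' hz3
    hmain

end Pool.Agent.H430.Cl
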