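import Mathlib

/-!
A layer cake inequality for finite families of weighted points on the half line.
-/

set_option autoImplicit false

namespace Pool.Agent.H430.Cl

open MeasureTheory Finset

/-- the step function of `l` -/
noncomputable def st (l t : ℝ) : ℝ := Set.indicator (Set.Iio l) (fun _ => (1 : ℝ)) t

lemma st_mul (l l' t : ℝ) : st l t * st l' t = st (min l l') t := by
  unfold st
  by_cases h : t < l <;> by_cases h' : t < l' <;> simp [Set.indicator, h, h']

lemma st_nonneg (l t : ℝ) : 0 ≤ st l t := by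
  unfold st
  exact Set.indicator_nonneg (fun _ _ => zero_le_one) _

lemma st_eq (l t : ℝ) : st l t = 1 ∨ st l t = 0 := by
  unfold st
  by_cases h : t < l <;> simp [Set.indicator, h]

lemma st_int (T l : ℝ) : Integrable (st l) (volume.restrict (Set.Ioc 0 T)) := by
  unfold st
  exact (integrable_const (1 : ℝ)).indicator measurableSet_Iio

lemma int_st {T l : ℝ} (hl : 0 ≤ l) (hT : l ≤ T) :
    ∫ t in Set.Ioc 0 T, st l t = l := by
  unfold st
  have h1 : ∫ t in Set.Ioc 0 T, Set.indicator (Set.Iio l) (fun _ => (1 : ℝ)) t =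
      ∫ _t in Set.Ioc 0 T ∩ Set.Iio l, (1 : ℝ) := by
    rw [setIntegral_indicator measurableSet_Iio]
  rw [h1]
  have h2 : Set.Ioc 0 T ∩ Set.Iio l = Set.Ioo 0 l := by
    ext t
    simp only [Set.mem_inter_iff, Set.mem_Ioc, Set.mem_Iio, Set.mem_Ioo]
    constructor
    · rintro ⟨⟨h1, h2⟩, h3⟩
      exact ⟨h1, h3⟩
    · rintro ⟨h1, h2⟩
      exact ⟨⟨h1, by linarith⟩, h2⟩
  rw [h2]
  simp [hl]

lemma sum_pos_part (y : ℝ) (hy : 0 ≤ y) (A : ℕ) :
    ∑ a ∈ range A, max (y - a) 0 ≤ y + y ^ 2 / 2 := by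
  have key : ∀ A : ℕ, ∑ a ∈ range (A + 1), max (y - a) 0 ≤
      y + y ^ 2 / 2 - (max (y - A) 0) ^ 2 / 2 := by
    intro A
    induction A with
    | zero => simp [max_eq_left hy]
    | succ A ih =>
      rw [sum_range_succ]
      have h1 : max (y - ((A + 1 : ℕ) : ℝ)) 0 ≤
          (max (y - A) 0) ^ 2 / 2 - (max (y - ((A + 1 : ℕ) : ℝ)) 0) ^ 2 / 2 := by
        push_cast
        rcases le_total (y - (A + 1)) 0 with h | h
        · rw [max_eq_right h]
          have : 0 ≤ (max (y - (A : ℝ)) 0) ^ 2 := sq_nonneg _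
          linarith
        · rw [max_eq_left h, max_eq_left (by linarith : (0 : ℝ) ≤ y - A)]
          nlinarith
      linarith
  rcases A with _ | A
  · simp only [range_zero, sum_empty]
    positivity
  · have h1 := key A
    have h2 : 0 ≤ (max (y - (A : ℝ)) 0) ^ 2 := sq_nonneg _
    linarith

/-- the layer cake lemma -/
theorem layer {ι : Type} (W : Finset ι) (n lam : ι → ℝ) (hn : ∀ w ∈ W, 0 ≤ n w)
    (hlam : ∀ w ∈ W, 0 ≤ lam w) (c : ℝ) (hc : 0 ≤ c) :
    ∃ Lam : ℕ → ℝ, (∀ a, 0 ≤ Lam a) ∧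
      (∀ a, ∀ w ∈ W, c * (∑ w' ∈ W, n w' * min (lam w) (lam w')) - a * lam w ≤ Lam a) ∧
      ∀ A, ∑ a ∈ range A, Lam a ≤ c * (∑ w ∈ W, n w * lam w) +
        c ^ 2 / 2 * ∑ w ∈ W, ∑ w' ∈ W, n w * n w' * min (lam w) (lam w') := by
  classical
  set T : ℝ := ∑ w ∈ W, lam w with hT
  have hle : ∀ w ∈ W, lam w ≤ T := fun w hw => single_le_sum (f := lam) hlam hw
  set N : ℝ → ℝ := fun t => ∑ w ∈ W, n w * st (lam w) t with hN
  have hN0 : ∀ t, 0 ≤ N t := fun t => sum_nonneg fun w hw => mul_nonneg (hn w hw) (st_nonneg _ _)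
  set μ : Measure ℝ := volume.restrict (Set.Ioc 0 T) with hμ
  have hst : ∀ l, Integrable (st l) μ := fun l => st_int T l
  have hNi : Integrable N μ := integrable_finsetSum _ fun w _ => (hst _).const_mul _
  have hNa : ∀ a : ℕ, Integrable (fun t => c * N t - a) μ := fun a =>
    (hNi.const_mul c).sub (integrable_const _)
  have hpi : ∀ a : ℕ, Integrable (fun t => max (c * N t - a) 0) μ := fun a => (hNa a).pos_part
  have hint : ∀ l, 0 ≤ l → l ≤ T → ∫ t, st l t ∂μ = l := fun l h1 h2 => int_st h1 h2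
  have hprod : ∀ l, (fun t => st l t * N t) = fun t => ∑ w ∈ W, n w * st (min l (lam w)) t := by
    intro l
    funext t
    simp only [hN]
    rw [mul_sum]
    refine sum_congr rfl fun w _ => ?_
    rw [← st_mul]
    ring
  have hprodi : ∀ l, Integrable (fun t => st l t * N t) μ := by
    intro l
    rw [hprod]
    exact integrable_finsetSum _ fun w _ => (hst _).const_mul _
  have hint2 : ∀ l, 0 ≤ l → l ≤ T → ∫ t, st l t * N t ∂μ = ∑ w ∈ W, n w * min l (lam w) := by
    intro l h1 h2
    rw [hprod, integral_finsetSum _ fun w _ => (hst _).const_mul _]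
    refine sum_congr rfl fun w hw => ?_
    rw [integral_const_mul, hint _ (le_min h1 (hlam w hw)) ((min_le_left _ _).trans h2)]
  refine ⟨fun a => ∫ t, max (c * N t - a) 0 ∂μ, fun a => integral_nonneg fun t => le_max_right _ _,
    fun a w hw => ?_, fun A => ?_⟩
  · have h1 : ∫ t, (c * (st (lam w) t * N t) - a * st (lam w) t) ∂μ =
        c * (∑ w' ∈ W, n w' * min (lam w) (lam w')) - a * lam w := by
      rw [integral_sub ((hprodi _).const_mul c) ((hst _).const_mul _), integral_const_mul,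
        integral_const_mul, hint2 _ (hlam w hw) (hle w hw), hint _ (hlam w hw) (hle w hw)]
    rw [← h1]
    refine integral_mono (((hprodi _).const_mul c).sub ((hst _).const_mul _)) (hpi a) fun t => ?_
    show c * (st (lam w) t * N t) - a * st (lam w) t ≤ max (c * N t - a) 0
    rcases st_eq (lam w) t with h | h
    · rw [h]
      refine le_trans (le_of_eq ?_) (le_max_left _ _)
      ring
    · rw [h]
      refine le_trans (le_of_eq ?_) (le_max_right _ _)
      ring
  · have h1 : ∑ a ∈ range A, ∫ t, max (c * N t - a) 0 ∂μ =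
        ∫ t, ∑ a ∈ range A, max (c * N t - a) 0 ∂μ :=
      (integral_finsetSum _ fun a _ => hpi a).symm
    have hNN : (fun t => N t * N t) = fun t => ∑ w ∈ W, n w * (st (lam w) t * N t) := by
      funext t
      conv_lhs => rw [hN]
      simp only
      rw [sum_mul]
      exact sum_congr rfl fun w _ => by ring
    have hNNi : Integrable (fun t => N t * N t) μ := by
      rw [hNN]
      exact integrable_finsetSum _ fun w _ => (hprodi _).const_mul _
    have hNN2 : ∫ t, N t * N t ∂μ =
        ∑ w ∈ W, ∑ w' ∈ W, n w * n w' * min (lam w) (lam w') := by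
      rw [hNN, integral_finsetSum _ fun w _ => (hprodi _).const_mul _]
      refine sum_congr rfl fun w hw => ?_
      rw [integral_const_mul, hint2 _ (hlam w hw) (hle w hw), mul_sum]
      exact sum_congr rfl fun w' _ => by ring
    have hN1 : ∫ t, N t ∂μ = ∑ w ∈ W, n w * lam w := by
      simp only [hN]
      rw [integral_finsetSum _ fun w _ => (hst _).const_mul _]
      refine sum_congr rfl fun w hw => ?_
      rw [integral_const_mul, hint _ (hlam w hw) (hle w hw)]
    rw [h1]
    have h2 : ∫ t, (c * N t + c ^ 2 / 2 * (N t * N t)) ∂μ = c * (∑ w ∈ W, n w * lam w) +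
        c ^ 2 / 2 * ∑ w ∈ W, ∑ w' ∈ W, n w * n w' * min (lam w) (lam w') := by
      rw [integral_add (hNi.const_mul c) (hNNi.const_mul _), integral_const_mul,
        integral_const_mul, hNN2, hN1]
    rw [← h2]
    refine integral_mono (integrable_finsetSum _ fun a _ => hpi a)
      ((hNi.const_mul c).add (hNNi.const_mul _)) fun t => ?_
    show ∑ a ∈ range A, max (c * N t - a) 0 ≤ c * N t + c ^ 2 / 2 * (N t * N t)
    refine (sum_pos_part (c * N t) (mul_nonneg hc (hN0 t)) A).trans (le_of_eq ?_)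
    ring

/-- the greedy chain -/
theorem greedy_chain {q : ℕ} (hq : 0 < q) (Lam : Fin q → ℕ → ℝ) (hL : ∀ i a, 0 ≤ Lam i a) (M : ℕ) :
    ∃ (e : ℕ → Fin q → ℕ) (B : ℕ → ℝ), (∀ k, ∑ i, e k i = k) ∧ (∀ k i, Lam i (e k i) ≤ B k) ∧
      ∑ k ∈ range M, B k ≤ ∑ i, ∑ a ∈ range M, Lam i a := by
  classical
  have : Nonempty (Fin q) := ⟨⟨0, hq⟩⟩
  have hmax : ∀ e : Fin q → ℕ, ∃ i, ∀ j, Lam j (e j) ≤ Lam i (e i) := by
    intro e
    obtain ⟨i, hi⟩ := Finite.exists_max fun i => Lam i (e i)
    exact ⟨i, hi⟩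
  choose mx hmx using hmax
  set e : ℕ → Fin q → ℕ := fun k => Nat.rec (motive := fun _ => Fin q → ℕ) (fun _ => 0)
    (fun _ f => Function.update f (mx f) (f (mx f) + 1)) k with he
  have hstep : ∀ k, e (k + 1) = Function.update (e k) (mx (e k)) (e k (mx (e k)) + 1) :=
    fun k => rfl
  have hupd : ∀ (k : ℕ) (F : Fin q → ℕ → ℝ), ∑ i, F i (e (k + 1) i) =
      ∑ i, F i (e k i) + (F (mx (e k)) (e k (mx (e k)) + 1) - F (mx (e k)) (e k (mx (e k)))) := by
    intro k F
    rw [hstep, ← add_sum_erase _ _ (mem_univ (mx (e k))),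
      ← add_sum_erase (a := mx (e k)) univ (fun i => F i (e k i)) (mem_univ _)]
    have h1 : ∑ i ∈ univ.erase (mx (e k)), F i (Function.update (e k) (mx (e k))
        (e k (mx (e k)) + 1) i) = ∑ i ∈ univ.erase (mx (e k)), F i (e k i) := by
      refine sum_congr rfl fun i hi => ?_
      rw [Function.update_of_ne (ne_of_mem_erase hi)]
    rw [h1, Function.update_self]
    ring
  have hsum : ∀ k, ∑ i, e k i = k := by
    intro k
    have : (∑ i, (e k i : ℝ)) = k := by
      induction k with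
      | zero => simp [he]
      | succ k ih =>
        rw [hupd k (fun _ a => (a : ℝ)), ih]
        push_cast
        ring
    exact_mod_cast this
  refine ⟨e, fun k => Lam (mx (e k)) (e k (mx (e k))), hsum, fun k i => hmx _ _, ?_⟩
  have h1 : ∀ M, ∑ k ∈ range M, Lam (mx (e k)) (e k (mx (e k))) =
      ∑ i, ∑ a ∈ range (e M i), Lam i a := by
    intro M
    induction M with
    | zero => simp [he]
    | succ M ih =>
      rw [sum_range_succ, ih, hupd M (fun i a => ∑ b ∈ range a, Lam i b), sum_range_succ]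
      ring
  rw [h1]
  refine sum_le_sum fun i _ => sum_le_sum_of_subset_of_nonneg ?_ fun a _ _ => hL i a
  refine range_subset_range.2 ?_
  rw [← hsum M]
  exact single_le_sum (f := e (∑ i, e M i)) (fun _ _ => Nat.zero_le _) (mem_univ i) |>.trans
    (le_of_eq (by rw [hsum M, hsum M]))

end Pool.Agent.H430.Cl
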