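import Pool.Graph.R_pool_sql_team_seeded_3dad9d7b.NH28.FewD
import Pool.Agent.H430.Cl.Layer

/-!
Local heights on the line.
-/

set_option autoImplicit false

namespace Pool.Agent.H430.Cl

open Finset NumberField IsDedekindDomain Height Module
open Pool.Agent.W180.OP (Pl av wt fv nrm wt_nonneg le_nrm)
open Pool.Agent.NH28 (Ov nn ab mem_ab sum_nn one_le_nn nn_ext nn_nonneg)

variable {K L : Type} [Field K] [NumberField K] [Field L] [NumberField L] [Algebra K L]

/-- the local height of `x` at the place `w` with respect to the point `a`, divided by the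
local degree of `w` over `v` -/
noncomputable def prx (v : Pl K) (w : Pl L) (a : K) (x : L) : ℝ :=
  wt w * (Real.log (max 1 (av w x)) - Real.log (av w (x - algebraMap K L a))) / nn v w

lemma wt_le_two (w : Pl L) : wt w ≤ 2 := by
  cases w with
  | inl w =>
    show (w.mult : ℝ) ≤ 2
    have : w.mult ≤ 2 := by
      unfold InfinitePlace.mult
      split_ifs <;> omega
    exact_mod_cast this
  | inr w =>
    show (1 : ℝ) ≤ 2
    norm_num

lemma pos_ext {v : Pl K} {w : Pl L} (h : Ov v w) (c : K) :
    wt w * max 0 (Real.log (av w (algebraMap K L c))) =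
      nn v w * (wt v * max 0 (Real.log (av v c))) := by
  rw [mul_max_of_nonneg _ _ (wt_nonneg w), mul_max_of_nonneg _ _ (wt_nonneg v),
    mul_max_of_nonneg _ _ (nn_nonneg v w), nn_ext h]
  simp

lemma log_le_of {t : ℝ} {n : ℕ} (a : Fin n → ℝ) (ha : ∀ i, 0 ≤ a i) (ht : 0 < t)
    (h : t ≤ 1 + ∑ i, a i) :
    Real.log t ≤ Real.log (1 + n) + ∑ i, max 0 (Real.log (a i)) := by
  have h1 : ∀ i, a i ≤ Real.exp (∑ i, max 0 (Real.log (a i))) := by
    intro i
    rcases (ha i).eq_or_lt with h0 | h0
    · rw [← h0]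
      positivity
    · rw [← Real.log_le_iff_le_exp h0]
      exact (le_max_right _ _).trans (single_le_sum (f := fun i => max 0 (Real.log (a i)))
        (fun _ _ => le_max_left _ _) (mem_univ i))
  have h2 : (1 : ℝ) ≤ Real.exp (∑ i, max 0 (Real.log (a i))) :=
    Real.one_le_exp (sum_nonneg fun _ _ => le_max_left _ _)
  have h3 : t ≤ (1 + n) * Real.exp (∑ i, max 0 (Real.log (a i))) := by
    refine h.trans ?_
    rw [add_mul, one_mul]
    refine add_le_add h2 ?_
    refine (sum_le_card_nsmul _ _ _ fun i _ => h1 i).trans (le_of_eq ?_)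
    rw [card_univ, Fintype.card_fin, nsmul_eq_mul]
  refine (Real.log_le_log ht h3).trans (le_of_eq ?_)
  rw [Real.log_mul (by positivity) (Real.exp_ne_zero _), Real.log_exp]

/-- local heights are bounded below -/
lemma prx_lb (v : Pl K) (a : K) : ∃ c : ℝ, 0 ≤ c ∧ ∀ (L : Type) [Field L] [NumberField L]
    [Algebra K L], ∀ w ∈ ab L v, ∀ x : L, x ≠ algebraMap K L a → -c ≤ prx v w a x := by
  refine ⟨2 * Real.log (1 + (1 : ℕ)) + wt v * max 0 (Real.log (av v a)), ?_, ?_⟩
  · have h1 : 0 ≤ Real.log (1 + ((1 : ℕ) : ℝ)) := Real.log_nonneg (by norm_num)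
    have h2 := wt_nonneg v
    positivity
  intro L _ _ _ w hw x hx
  have hov := mem_ab.1 hw
  have hnn := one_le_nn hov
  have hnn0 : 0 < nn v w := by linarith
  have hx0 : 0 < av w (x - algebraMap K L a) := (av w).pos_iff.2 (sub_ne_zero.2 hx)
  set X := max 1 (av w x) with hX
  have hX1 : 1 ≤ X := le_max_left _ _
  have h1 : av w (x - algebraMap K L a) ≤ X * (1 + ∑ _i : Fin 1, av w (algebraMap K L a)) := by
    have h2 := (av w).sub_le x 0 (algebraMap K L a)
    simp only [sub_zero, zero_sub, (av w).map_neg] at h2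
    simp only [univ_unique, sum_const, card_singleton, one_smul]
    have h3 : av w x ≤ X := le_max_right _ _
    have h4 : av w (algebraMap K L a) ≤ X * av w (algebraMap K L a) :=
      le_mul_of_one_le_left ((av w).nonneg _) hX1
    linarith
  have h2 : Real.log (av w (x - algebraMap K L a)) ≤ Real.log X +
      (Real.log (1 + (1 : ℕ)) + max 0 (Real.log (av w (algebraMap K L a)))) := by
    have h3 := log_le_of (t := av w (x - algebraMap K L a) / X)
      (fun _ : Fin 1 => av w (algebraMap K L a)) (fun _ => (av w).nonneg _) (by positivity)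
      (by rw [div_le_iff₀ (by positivity), mul_comm]; exact h1)
    rw [Real.log_div hx0.ne' (by positivity)] at h3
    simp only [univ_unique, sum_const, card_singleton, one_smul] at h3
    linarith
  unfold prx
  rw [le_div_iff₀ hnn0]
  have h3 := mul_le_mul_of_nonneg_left h2 (wt_nonneg w)
  have h4 := pos_ext hov a
  have h5 : wt w * Real.log (1 + ((1 : ℕ) : ℝ)) ≤ nn v w * (2 * Real.log (1 + ((1 : ℕ) : ℝ))) := by
    have h6 : 0 ≤ Real.log (1 + ((1 : ℕ) : ℝ)) := Real.log_nonneg (by norm_num)
    have h7 := mul_le_mul_of_nonneg_right (wt_le_two w) h6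
    have h8 : 2 * Real.log (1 + ((1 : ℕ) : ℝ)) ≤ nn v w * (2 * Real.log (1 + ((1 : ℕ) : ℝ))) :=
      le_mul_of_one_le_left (by positivity) hnn
    linarith
  have h9 : wt w * (Real.log X + (Real.log (1 + ((1 : ℕ) : ℝ)) +
      max 0 (Real.log (av w (algebraMap K L a))))) = wt w * Real.log X +
      (wt w * Real.log (1 + ((1 : ℕ) : ℝ)) +
        wt w * max 0 (Real.log (av w (algebraMap K L a)))) := by ring
  rw [h9, h4] at h3
  rw [mul_sub]
  linarith

/-- a point is close to at most one of two distinct points -/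
lemma prx_min (v : Pl K) (a b : K) (hab : a ≠ b) : ∃ c : ℝ, 0 ≤ c ∧ ∀ (L : Type) [Field L]
    [NumberField L] [Algebra K L], ∀ w ∈ ab L v, ∀ x : L, x ≠ algebraMap K L a →
      x ≠ algebraMap K L b → min (prx v w a x) (prx v w b x) ≤ c := by
  -- the points `u` which are not close to `a`
  have key : ∀ a b : K, a ≠ b → ∃ c : ℝ, 0 ≤ c ∧ ∀ (L : Type) [Field L]
      [NumberField L] [Algebra K L], ∀ w ∈ ab L v, ∀ x : L, x ≠ algebraMap K L a →
      av w (algebraMap K L (a - b)) ≤ 2 * av w (x - algebraMap K L a) → prx v w a x ≤ c := by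
    intro a b hab
    have hl : 0 ≤ Real.log (1 + ((4 : ℕ) : ℝ)) := Real.log_nonneg (by norm_num)
    have hwv := wt_nonneg v
    refine ⟨2 * Real.log (1 + (4 : ℕ)) + (2 * (wt v * max 0 (Real.log (av v (1 / (a - b))))) +
      2 * (wt v * max 0 (Real.log (av v (a / (a - b)))))), by positivity, ?_⟩
    intro L _ _ _ w hw x hx hD
    have hov := mem_ab.1 hw
    have hnn := one_le_nn hov
    have hnn0 : 0 < nn v w := by linarith
    have hx0 : 0 < av w (x - algebraMap K L a) := (av w).pos_iff.2 (sub_ne_zero.2 hx)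
    have hD0 : 0 < av w (algebraMap K L (a - b)) :=
      (av w).pos_iff.2 ((map_ne_zero _).2 (sub_ne_zero.2 hab))
    set X := max 1 (av w x) with hX
    have hX1 : 1 ≤ X := le_max_left _ _
    set U : ℝ := av w (algebraMap K L (1 / (a - b))) with hU
    set V : ℝ := av w (algebraMap K L (a / (a - b))) with hV
    have hU' : U * av w (algebraMap K L (a - b)) = 1 := by
      rw [hU, ← map_mul, ← map_mul, one_div, inv_mul_cancel₀ (sub_ne_zero.2 hab), map_one, map_one]
    have hV' : V * av w (algebraMap K L (a - b)) = av w (algebraMap K L a) := by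
      rw [hV, ← map_mul, ← map_mul, div_mul_cancel₀ _ (sub_ne_zero.2 hab)]
    have hU0 : 0 ≤ U := (av w).nonneg _
    have hV0 : 0 ≤ V := (av w).nonneg _
    set F : Fin 4 → ℝ := ![U, U, V, V] with hF
    have hF0 : ∀ i, 0 ≤ F i := by
      intro i
      fin_cases i <;> simp [hF, hU0, hV0]
    have hFs : ∑ i, F i = 2 * U + 2 * V := by
      simp only [hF, Fin.sum_univ_four, Matrix.cons_val_zero, Matrix.cons_val_one,
        Matrix.cons_val]
      ring
    have hFl : ∑ i, max 0 (Real.log (F i)) = 2 * max 0 (Real.log U) + 2 * max 0 (Real.log V) := by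
      simp only [hF, Fin.sum_univ_four, Matrix.cons_val_zero, Matrix.cons_val_one,
        Matrix.cons_val]
      ring
    have h1 : X ≤ av w (x - algebraMap K L a) * (1 + ∑ i, F i) := by
      rw [hFs]
      have e1 : av w (x - algebraMap K L a) * (1 + (2 * U + 2 * V)) =
        av w (x - algebraMap K L a) + U * (2 * av w (x - algebraMap K L a)) +
          V * (2 * av w (x - algebraMap K L a)) := by ring
      have h2 := mul_le_mul_of_nonneg_left hD hU0
      have h3 := mul_le_mul_of_nonneg_left hD hV0
      rw [hU'] at h2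
      rw [hV'] at h3
      have h4 : av w x ≤ av w (x - algebraMap K L a) + av w (algebraMap K L a) := by
        have := (av w).add_le (x - algebraMap K L a) (algebraMap K L a)
        simpa using this
      have h5 : 0 ≤ av w (algebraMap K L a) := (av w).nonneg _
      rw [e1]
      refine max_le ?_ ?_
      · linarith
      · linarith
    have h2 : Real.log X ≤ Real.log (av w (x - algebraMap K L a)) +
        (Real.log (1 + (4 : ℕ)) + (2 * max 0 (Real.log U) + 2 * max 0 (Real.log V))) := by
      have h3 := log_le_of (t := X / av w (x - algebraMap K L a)) F hF0 (by positivity)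
        (by rw [div_le_iff₀ hx0, mul_comm]; exact h1)
      rw [Real.log_div (by positivity) hx0.ne', hFl] at h3
      linarith
    unfold prx
    rw [div_le_iff₀ hnn0]
    have h3 := mul_le_mul_of_nonneg_left h2 (wt_nonneg w)
    have h4 := pos_ext hov (1 / (a - b))
    have h4' := pos_ext hov (a / (a - b))
    have h5 : wt w * Real.log (1 + ((4 : ℕ) : ℝ)) ≤ nn v w * (2 * Real.log (1 + ((4 : ℕ) : ℝ))) := by
      have h7 := mul_le_mul_of_nonneg_right (wt_le_two w) hl
      have h8 : 2 * Real.log (1 + ((4 : ℕ) : ℝ)) ≤ nn v w * (2 * Real.log (1 + ((4 : ℕ) : ℝ))) :=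
        le_mul_of_one_le_left (by positivity) hnn
      linarith
    have h9 : wt w * (Real.log (av w (x - algebraMap K L a)) + (Real.log (1 + ((4 : ℕ) : ℝ)) +
        (2 * max 0 (Real.log U) + 2 * max 0 (Real.log V)))) =
        wt w * Real.log (av w (x - algebraMap K L a)) + (wt w * Real.log (1 + ((4 : ℕ) : ℝ)) +
        (2 * (wt w * max 0 (Real.log U)) + 2 * (wt w * max 0 (Real.log V)))) := by ring
    rw [h9, hU, hV, h4, h4'] at h3
    rw [mul_sub]
    have e2 : (2 * Real.log (1 + ((4 : ℕ) : ℝ)) + (2 * (wt v * max 0 (Real.log (av v (1 / (a - b))))) +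
      2 * (wt v * max 0 (Real.log (av v (a / (a - b))))))) * nn v w =
      nn v w * (2 * Real.log (1 + ((4 : ℕ) : ℝ))) +
      (2 * (nn v w * (wt v * max 0 (Real.log (av v (1 / (a - b)))))) +
      2 * (nn v w * (wt v * max 0 (Real.log (av v (a / (a - b))))))) := by ring
    rw [e2, ← hX]
    refine sub_le_iff_le_add'.2 (h3.trans ?_)
    exact add_le_add le_rfl (add_le_add h5 le_rfl)
  obtain ⟨c, hc0, hc⟩ := key a b hab
  obtain ⟨c', hc0', hc'⟩ := key b a (Ne.symm hab)
  refine ⟨c + c', by positivity, ?_⟩
  intro L _ _ _ w hw x hxa hxb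
  have h1 : av w (algebraMap K L (a - b)) ≤ av w (x - algebraMap K L b) +
      av w (x - algebraMap K L a) := by
    have := (av w).sub_le (x - algebraMap K L b) 0 (x - algebraMap K L a)
    simp only [sub_zero, zero_sub, (av w).map_neg] at this
    have e : x - algebraMap K L b - (x - algebraMap K L a) = algebraMap K L (a - b) := by
      rw [map_sub]; ring
    rwa [e] at this
  rcases le_total (av w (x - algebraMap K L b)) (av w (x - algebraMap K L a)) with h | h
  · exact (min_le_left _ _).trans ((hc L w hw x hxa (by linarith)).trans (by linarith))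
  · refine (min_le_right _ _).trans ((hc' L w hw x hxb ?_).trans (by linarith))
    have e : av w (algebraMap K L (b - a)) = av w (algebraMap K L (a - b)) := by
      rw [← (av w).map_neg, ← map_neg, neg_sub]
    rw [e]
    linarith

end Pool.Agent.H430.Cl
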