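import Pool.Agent.H430.Cl.Glob

/-!
Wirsing's theorem with clusters.
-/

set_option autoImplicit false

namespace Pool.Agent.H430.Cl

open Finset NumberField IsDedekindDomain Height Module Polynomial
open Pool.Agent.W180.OP (Pl av wt fv nrm wt_nonneg le_nrm exists_nrm)
open Pool.Agent.NH28 (Ov nn ab mem_ab sum_nn one_le_nn nn_ext nn_nonneg trace_pl ThetaP
  exists_theta exists_below ov_unique)

lemma choose_M (r : ℕ) (C1 : ℝ) (hC1 : 0 ≤ C1) (ε : ℝ) (hε : 0 < ε) :
    ∃ M : ℕ, 0 < (M : ℝ) ^ 2 / 2 - M * r - 1 ∧ ∀ r' : ℝ, 0 ≤ r' → r' ≤ r →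
      ((M : ℝ) + 1) * r' * (M + C1) + 1 ≤ (2 * r' + ε) * ((M : ℝ) ^ 2 / 2 - M * r - 1) := by
  set A : ℝ := ε * r + ε + r * (1 + C1 + 2 * r) + r * (C1 + 2) + 1 with hA
  obtain ⟨M, hM⟩ := exists_nat_ge (2 * A / ε + 1)
  have hr0 : (0 : ℝ) ≤ r := Nat.cast_nonneg r
  have hA0 : 0 < A := by positivity
  have hM1 : (1 : ℝ) ≤ M := by
    have : 0 ≤ 2 * A / ε := by positivity
    linarith
  have h1 : A ≤ ε * M / 2 := by
    have h2 : 2 * A / ε ≤ M := by linarith
    rw [div_le_iff₀ hε] at h2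
    linarith
  have h2 : M * A ≤ ε * M ^ 2 / 2 := by
    have := mul_le_mul_of_nonneg_left h1 (by linarith : (0 : ℝ) ≤ M)
    nlinarith
  have h3 : (r : ℝ) * (1 + C1 + 2 * r) * M + r * (C1 + 2) + 1 ≤
      ε * ((M : ℝ) ^ 2 / 2 - M * r - 1) := by
    have h4 : (r : ℝ) * (C1 + 2) ≤ M * (r * (C1 + 2)) :=
      le_mul_of_one_le_left (by positivity) hM1
    have h5 : ε ≤ M * ε := le_mul_of_one_le_left hε.le hM1
    have e1 : M * A = M * (ε * r) + M * ε + (r : ℝ) * (1 + C1 + 2 * r) * M +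
      M * (r * (C1 + 2)) + M := by rw [hA]; ring
    rw [e1] at h2
    have e2 : ε * ((M : ℝ) ^ 2 / 2 - M * r - 1) = ε * M ^ 2 / 2 - M * (ε * r) - ε := by ring
    rw [e2]
    linarith
  refine ⟨M, ?_, fun r' hr'0 hr'r => ?_⟩
  · have h4 : 0 < ε * ((M : ℝ) ^ 2 / 2 - M * r - 1) := by
      refine lt_of_lt_of_le ?_ h3
      positivity
    exact (pos_iff_pos_of_mul_pos h4).1 hε
  · have h4 : r' * (1 + C1 + 2 * r) * M + r' * (C1 + 2) + 1 ≤
        (r : ℝ) * (1 + C1 + 2 * r) * M + r * (C1 + 2) + 1 := by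
      have h5 : r' * (1 + C1 + 2 * r) * M ≤ (r : ℝ) * (1 + C1 + 2 * r) * M :=
        mul_le_mul_of_nonneg_right (mul_le_mul_of_nonneg_right hr'r (by positivity))
          (by linarith)
      have h6 : r' * (C1 + 2) ≤ (r : ℝ) * (C1 + 2) :=
        mul_le_mul_of_nonneg_right hr'r (by linarith)
      linarith
    have e1 : ((M : ℝ) + 1) * r' * (M + C1) + 1 = r' * M ^ 2 + r' * (1 + C1) * M + r' * C1 + 1 := by
      ring
    have e2 : (2 * r' + ε) * ((M : ℝ) ^ 2 / 2 - M * r - 1) =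
      r' * M ^ 2 - r' * (2 * r) * M - r' * 2 + ε * ((M : ℝ) ^ 2 / 2 - M * r - 1) := by ring
    rw [e1, e2]
    have e3 : r' * (1 + C1 + 2 * r) * M + r' * (C1 + 2) + 1 =
      r' * (1 + C1) * M + r' * (2 * r) * M + r' * C1 + r' * 2 + 1 := by ring
    rw [e3] at h4
    linarith

/-- Wirsing's theorem with clusters, in terms of the places of `K(x)` -/
theorem wirsing_clusters {K : Type} [Field K] [NumberField K] {q : ℕ} (a : Fin q → K)
    (ha : Function.Injective a) (r : ℕ) (ε : ℝ) (hε : 0 < ε) :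
    ∃ Φ : K[X], Φ ≠ 0 ∧ (∀ i, Φ.eval (a i) = 0) ∧ ∀ S : Finset (Pl K), ∃ C : ℝ,
      ∀ (L : Type) [Field L] [NumberField L] [Algebra K L], finrank K L ≤ r → ∀ x : L,
        IntermediateField.adjoin K {x} = ⊤ → aeval x Φ ≠ 0 →
        ∑ v ∈ S, ∑ i, ∑ w ∈ ab L v, ∑ w' ∈ ab L v,
          nn v w * nn v w' * min (prx v w (a i) x) (prx v w' (a i) x) ≤
          (2 * finrank K L + ε) * logHeight ![1, x] + C := by
  classical
  rcases Nat.eq_zero_or_pos q with hq | hq
  · subst hq
    refine ⟨1, one_ne_zero, fun i => i.elim0, fun S => ⟨0, ?_⟩⟩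
    intro L _ _ _ _ x _ _
    simp only [univ_eq_empty, sum_empty, sum_const_zero]
    have := logHeight_nonneg (![1, x] : Fin 2 → L)
    positivity
  rcases Nat.eq_zero_or_pos r with hr | hr
  · subst hr
    refine ⟨∏ i, (X - C (a i)), prod_ne_zero_iff.2 fun i _ => X_sub_C_ne_zero _, fun i => ?_,
      fun S => ⟨0, ?_⟩⟩
    · rw [eval_prod, prod_eq_zero (mem_univ i) (by simp)]
    intro L _ _ _ hL x _ _
    have : 0 < finrank K L := finrank_pos
    omega
  obtain ⟨C1, hC10, hC1⟩ := exists_theta K 2 r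
  obtain ⟨M, hκ, hM⟩ := choose_M r C1 hC10 ε hε
  obtain ⟨Φ, hΦ0, hΦa, hΦ⟩ := glob_cl hq a r hr M C1 ⟨hC10, hC1⟩
  refine ⟨Φ, hΦ0, hΦa, fun S => ?_⟩
  -- enlarge `S`
  set S' : Finset (Pl K) := S ∪ Finset.univ.image Sum.inl with hS'
  choose cl hcl0 hcl using fun t : Pl K × Fin q => prx_lb t.1 (a t.2)
  choose cm hcm0 hcm using fun t : Pl K × {p : Fin q × Fin q // p.1 ≠ p.2} =>
    prx_min t.1 (a t.2.1.1) (a t.2.1.2) (fun h => t.2.2 (ha h))
  set c0 : ℝ := ∑ v ∈ S', ∑ i, cl (v, i) with hc0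
  have hc00 : 0 ≤ c0 := sum_nonneg fun v _ => sum_nonneg fun i _ => hcl0 _
  set c1 : ℝ := ∑ v ∈ S', ∑ p, cm (v, p) with hc1
  have hc10 : 0 ≤ c1 := sum_nonneg fun v _ => sum_nonneg fun i _ => hcm0 _
  obtain ⟨C, hC0, hC⟩ := hΦ S' (fun v => mem_union_right _ (mem_image_of_mem _ (mem_univ v)))
    c0 hc00
  set κ : ℝ := (M : ℝ) ^ 2 / 2 - M * r - 1 with hκd
  refine ⟨C / κ + S.card * (q * (r ^ 2 * c1)), ?_⟩
  intro L _ _ _ hrL x hadj hΦx
  have hxa : ∀ i, x ≠ algebraMap K L (a i) := by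
    intro i hi
    apply hΦx
    rw [hi, aeval_algebraMap_apply_eq_algebraMap_eval, hΦa, map_zero]
  have hlow : ∀ v ∈ S', ∀ w ∈ ab L v, ∀ i, 0 ≤ prx v w (a i) x + c0 := by
    intro v hv w hw i
    have h1 := hcl (v, i) L w hw x (hxa i)
    have h2 : cl (v, i) ≤ c0 :=
      (single_le_sum (f := fun i => cl (v, i)) (fun i _ => hcl0 _) (mem_univ i)).trans
        (single_le_sum (f := fun v => ∑ i, cl (v, i))
          (fun v _ => sum_nonneg fun i _ => hcl0 _) hv)
    simp only at h1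
    linarith
  choose bel hbel using fun w : Pl L => exists_below (K := K) w
  have hbelv : ∀ v, ∀ w ∈ ab L v, bel w = v := fun v w hw => ov_unique (hbel w) (mem_ab.1 hw)
  have : Nonempty (Fin q) := ⟨⟨0, hq⟩⟩
  choose e he using fun w : Pl L => Finite.exists_max fun i => prx (bel w) w (a i) x
  have hup : ∀ v ∈ S', ∀ w ∈ ab L v, ∀ i, i ≠ e w → prx v w (a i) x ≤ c1 := by
    intro v hv w hw i hi
    have h1 := hcm (v, ⟨(i, e w), hi⟩) L w hw x (hxa i) (hxa (e w))
    have h2 := he w i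
    rw [hbelv v w hw] at h2
    simp only at h1
    rw [min_eq_left h2] at h1
    exact h1.trans ((single_le_sum (f := fun p => cm (v, p)) (fun i _ => hcm0 _)
      (mem_univ _)).trans (single_le_sum (f := fun v => ∑ p, cm (v, p))
          (fun v _ => sum_nonneg fun i _ => hcm0 _) hv))
  have hmain := hC L hrL x hadj hΦx hlow e
  set h : ℝ := logHeight ![1, x] with hh
  have hh0 : 0 ≤ h := logHeight_nonneg _
  set r' : ℝ := (finrank K L : ℝ) with hr'
  have hr'0 : 0 ≤ r' := Nat.cast_nonneg _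
  have hr'r : r' ≤ r := by
    rw [hr']
    exact_mod_cast hrL
  have hX : ∑ v ∈ S', Qc v a c0 x e ≤ (2 * r' + ε) * h + C / κ := by
    have h1 := mul_le_mul_of_nonneg_right (hM r' hr'0 hr'r) hh0
    have h2 : κ * ∑ v ∈ S', Qc v a c0 x e ≤ κ * ((2 * r' + ε) * h + C / κ) := by
      have e1 : κ * ((2 * r' + ε) * h + C / κ) = (2 * r' + ε) * κ * h + C := by
        field_simp
      rw [e1]
      linarith
    exact le_of_mul_le_mul_left h2 hκ
  have hell : ∀ v ∈ S', ∀ w ∈ ab L v, 0 ≤ ell v a c0 x e w := fun v hv w hw => hlow v hv w hw _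
  have hloc : ∀ v ∈ S, ∑ i, ∑ w ∈ ab L v, ∑ w' ∈ ab L v,
      nn v w * nn v w' * min (prx v w (a i) x) (prx v w' (a i) x) ≤
      Qc v a c0 x e + q * (r ^ 2 * c1) := by
    intro v hv
    have hv' : v ∈ S' := mem_union_left _ hv
    have hterm : ∀ i, ∑ w ∈ ab L v, ∑ w' ∈ ab L v,
        nn v w * nn v w' * min (prx v w (a i) x) (prx v w' (a i) x) ≤
        ∑ w ∈ (ab L v).filter (fun w => e w = i), ∑ w' ∈ (ab L v).filter (fun w => e w = i),
          nn v w * nn v w' * min (ell v a c0 x e w) (ell v a c0 x e w') + r ^ 2 * c1 := by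
      intro i
      have h1 : ∀ w ∈ ab L v, ∀ w' ∈ ab L v,
          nn v w * nn v w' * min (prx v w (a i) x) (prx v w' (a i) x) ≤
          (if e w = i then (if e w' = i then
            nn v w * nn v w' * min (ell v a c0 x e w) (ell v a c0 x e w') else 0) else 0) +
            nn v w * nn v w' * c1 := by
        intro w hw w' hw'
        have hnn : 0 ≤ nn v w * nn v w' := mul_nonneg (nn_nonneg _ _) (nn_nonneg _ _)
        have hc : 0 ≤ nn v w * nn v w' * c1 := mul_nonneg hnn hc10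
        by_cases h1 : e w = i
        · by_cases h2 : e w' = i
          · rw [if_pos h1, if_pos h2]
            have h3 : nn v w * nn v w' * min (prx v w (a i) x) (prx v w' (a i) x) ≤
                nn v w * nn v w' * min (ell v a c0 x e w) (ell v a c0 x e w') := by
              refine mul_le_mul_of_nonneg_left (min_le_min ?_ ?_) hnn
              · unfold ell; rw [h1]; linarith
              · unfold ell; rw [h2]; linarith
            linarith
          · rw [if_pos h1, if_neg h2, zero_add]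
            exact mul_le_mul_of_nonneg_left ((min_le_right _ _).trans
              (hup v hv' w' hw' i (Ne.symm h2))) hnn
        · rw [if_neg h1, zero_add]
          exact mul_le_mul_of_nonneg_left ((min_le_left _ _).trans
              (hup v hv' w hw i (Ne.symm h1))) hnn
      refine (sum_le_sum fun w hw => sum_le_sum fun w' hw' => h1 w hw w' hw').trans ?_
      have h2 : ∑ w ∈ ab L v, ∑ w' ∈ ab L v, (((if e w = i then (if e w' = i then
            nn v w * nn v w' * min (ell v a c0 x e w) (ell v a c0 x e w') else 0) else 0) : ℝ) +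
            nn v w * nn v w' * c1) =
          ∑ w ∈ (ab L v).filter (fun w => e w = i), ∑ w' ∈ (ab L v).filter (fun w => e w = i),
          nn v w * nn v w' * min (ell v a c0 x e w) (ell v a c0 x e w') +
            (∑ w ∈ ab L v, nn v w) * (∑ w' ∈ ab L v, nn v w') * c1 := by
        simp_rw [sum_add_distrib]
        congr 1
        · rw [sum_filter]
          refine sum_congr rfl fun w _ => ?_
          by_cases h1 : e w = i
          · simp only [h1, if_true, sum_filter]
          · simp only [h1, if_false, sum_const_zero]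
        · rw [sum_mul_sum, sum_mul]
          exact sum_congr rfl fun w _ => by rw [sum_mul]
      rw [h2, sum_nn, ← hr']
      have h3 : r' * r' * c1 ≤ r ^ 2 * c1 := by
        refine mul_le_mul_of_nonneg_right ?_ hc10
        nlinarith
      linarith
    refine (sum_le_sum fun i _ => hterm i).trans (le_of_eq ?_)
    rw [sum_add_distrib, sum_const, card_univ, Fintype.card_fin, nsmul_eq_mul]
    rfl
  refine (sum_le_sum hloc).trans ?_
  rw [sum_add_distrib, sum_const, nsmul_eq_mul]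
  have h1 : ∑ v ∈ S, Qc v a c0 x e ≤ ∑ v ∈ S', Qc v a c0 x e :=
    sum_le_sum_of_subset_of_nonneg subset_union_left fun v hv _ =>
      Qc_nonneg v a c0 x e (hell v hv)
  linarith

end Pool.Agent.H430.Cl
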