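import Pool.Agent.H430.Cl.Loc

/-!
The estimates at one place.
-/

set_option autoImplicit false

namespace Pool.Agent.H430.Cl

open Finset NumberField IsDedekindDomain Height Module Polynomial
open Pool.Agent.W180.OP (Pl av wt fv nrm wt_nonneg le_nrm exists_nrm)
open Pool.Agent.NH28 (Ov nn ab mem_ab sum_nn one_le_nn nn_ext nn_nonneg trace_pl)

/-- the product of powers of linear factors -/
noncomputable def gp {K : Type} [Field K] {q : ℕ} (a : Fin q → K) (e : Fin q → ℕ) : K[X] :=
  ∏ i, (X - C (a i)) ^ e i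

lemma gp_monic {K : Type} [Field K] {q : ℕ} (a : Fin q → K) (e : Fin q → ℕ) : (gp a e).Monic :=
  monic_prod_of_monic _ _ fun _ _ => (monic_X_sub_C _).pow _

lemma gp_natDegree {K : Type} [Field K] {q : ℕ} (a : Fin q → K) (e : Fin q → ℕ) :
    (gp a e).natDegree = ∑ i, e i := by
  unfold gp
  rw [natDegree_prod_of_monic _ _ fun _ _ => (monic_X_sub_C _).pow _]
  refine sum_congr rfl fun i _ => ?_
  rw [(monic_X_sub_C _).natDegree_pow, natDegree_X_sub_C, mul_one]

lemma gp_aeval {K L : Type} [Field K] [Field L] [Algebra K L] {q : ℕ} (a : Fin q → K)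
    (e : Fin q → ℕ) (x : L) : aeval x (gp a e) = ∏ i, (x - algebraMap K L (a i)) ^ e i := by
  unfold gp
  rw [map_prod]
  refine prod_congr rfl fun i _ => ?_
  simp

lemma lin_trace {K L : Type} [Field K] [Field L] [Algebra K L] (M : ℕ) (P : K[X])
    (hP : P.natDegree ≤ M) (x θ : L) : Algebra.trace K L (θ * aeval x P) =
      ∑ j : Fin (M + 1), P.coeff j * Algebra.trace K L (θ * x ^ (j : ℕ)) := by
  rw [aeval_eq_sum_range' (Nat.lt_succ_of_le hP), mul_sum, map_sum, Finset.sum_range]
  refine sum_congr rfl fun j _ => ?_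
  rw [mul_smul_comm, map_smul, smul_eq_mul]

lemma indep_forms {K : Type} [Field K] (g : ℕ → K[X]) (hg : ∀ k, (g k).degree = k) (M : ℕ) :
    LinearIndependent K (fun (k : Fin (M + 1)) (j : Fin (M + 1)) => (g k).coeff j) := by
  set Sq : Polynomial.Sequence K := ⟨g, hg⟩ with hSq
  have h1 : LinearIndependent K Sq := Sq.linearIndependent
  have h2 : LinearIndependent K (fun k : Fin (M + 1) => g k) :=
    h1.comp (fun k : Fin (M + 1) => (k : ℕ)) Fin.val_injective
  rw [Fintype.linearIndependent_iff] at h2 ⊢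
  intro c hc
  apply h2 c
  ext j
  rw [coeff_zero]
  by_cases hj : j < M + 1
  · have h3 := congrFun hc ⟨j, hj⟩
    simp only [Finset.sum_apply, Pi.smul_apply, smul_eq_mul, Pi.zero_apply] at h3
    rw [finsetSum_coeff]
    simpa only [coeff_smul, smul_eq_mul] using h3
  · rw [finsetSum_coeff]
    refine sum_eq_zero fun k _ => ?_
    rw [coeff_smul, coeff_eq_zero_of_degree_lt, smul_zero]
    rw [hg]
    have := k.2
    exact_mod_cast (by omega : (k : ℕ) < j)

/-- the exponents -/
abbrev Ex (q M : ℕ) : Type := {e : Fin q → Fin (M + 1) // ∑ i, (e i : ℕ) ≤ M}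

lemma nrm_line {L : Type} [Field L] (f : AbsoluteValue L ℝ) (x : L) :
    nrm f ![1, x] = max 1 (f x) := by
  apply le_antisymm
  · obtain ⟨j, hj⟩ := exists_nrm f (by norm_num : 0 < 2) ![1, x]
    rw [← hj]
    fin_cases j
    · simp
    · simp
  · refine max_le ?_ ?_
    · have := le_nrm f ![1, x] 0
      simpa using this
    · have := le_nrm f ![1, x] 1
      simpa using this

theorem place_cl {K : Type} [Field K] [NumberField K] {q : ℕ} (hq : 0 < q) (a : Fin q → K)
    (v : Pl K) (r M : ℕ) (c0 : ℝ) (hc0 : 0 ≤ c0) : ∃ Cv : ℝ, 0 ≤ Cv ∧ ∀ (L : Type) [Field L]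
    [NumberField L] [Algebra K L], finrank K L ≤ r → ∀ x : L, (∀ i, x ≠ algebraMap K L (a i)) →
    (∀ w ∈ ab L v, ∀ i, 0 ≤ prx v w (a i) x + c0) → ∀ e : Pl L → Fin q, ∀ (θ : L) (t0 c : ℝ),
    0 ≤ c → (∀ w ∈ ab L v, wt w * Real.log (av w θ) + M * (wt w * Real.log (max 1 (av w x))) ≤
      nn v w * (t0 + c * ∑ w' ∈ (ab L v).filter (fun w' => e w' = e w),
        nn v w' * min (prx v w (a (e w)) x + c0) (prx v w' (a (e w')) x + c0))) →
    (∀ f : Ex q M, Algebra.trace K L (θ * aeval x (gp a fun i => (f.1 i : ℕ))) ≠ 0) →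
    ∃ β : Fin (M + 1) → Ex q M,
      LinearIndependent K (fun (k : Fin (M + 1)) (j : Fin (M + 1)) =>
        (gp a fun i => ((β k).1 i : ℕ)).coeff j) ∧
      ∑ k, wt v * Real.log (av v (Algebra.trace K L (θ * aeval x
        (gp a fun i => ((β k).1 i : ℕ))))) ≤ (M + 1) * (t0 + Cv) +
        (c * ∑ w ∈ ab L v, nn v w * (prx v w (a (e w)) x + c0) +
        c ^ 2 / 2 * ∑ i, ∑ w ∈ (ab L v).filter (fun w => e w = i),
          ∑ w' ∈ (ab L v).filter (fun w => e w = i), nn v w * nn v w' *
            min (prx v w (a (e w)) x + c0) (prx v w' (a (e w')) x + c0)) := by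
  classical
  obtain ⟨ct, hct0, hct⟩ := trace_pl v r
  refine ⟨M * c0 + ct, by positivity, ?_⟩
  intro L _ _ _ hrL x hx hpos e θ t0 c hc hθ hT
  set ℓ : Pl L → ℝ := fun w => prx v w (a (e w)) x + c0 with hℓ
  set W : Fin q → Finset (Pl L) := fun i => (ab L v).filter (fun w => e w = i) with hW
  have hmW : ∀ i w, w ∈ W i ↔ w ∈ ab L v ∧ e w = i := fun i w => mem_filter
  choose Lam hLam0 hLam1 hLam2 using fun i : Fin q => layer (W i) (nn v) ℓ
    (fun w _ => nn_nonneg v w) (fun w hw => hpos w ((hmW i w).1 hw).1 _) c hc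
  obtain ⟨E, B, hE, hB, hBs⟩ := greedy_chain hq Lam hLam0 (M + 1)
  have hθ0 : θ ≠ 0 := by
    rintro rfl
    apply hT ⟨fun _ => 0, by simp⟩
    rw [zero_mul, map_zero]
  have hEle : ∀ k i, E k i ≤ k := fun k i => by
    have := single_le_sum (f := E k) (fun _ _ => Nat.zero_le _) (mem_univ i)
    rwa [hE k] at this
  set β : Fin (M + 1) → Ex q M := fun k => ⟨fun i => ⟨E k i, by
    have := hEle k i
    have := k.2
    omega⟩, by
      have h1 : ∑ i, (((⟨E k i, by
        have := hEle k i
        have := k.2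
        omega⟩ : Fin (M + 1)) : ℕ)) = ∑ i, E k i := rfl
      rw [h1, hE k]
      have := k.2
      omega⟩ with hβ
  have hβE : ∀ k, (gp a fun i => ((β k).1 i : ℕ)) = gp a (E k) := fun k => rfl
  refine ⟨β, ?_, ?_⟩
  · have h1 := indep_forms (fun k => gp a (E k)) (fun k => by
      rw [degree_eq_natDegree (gp_monic _ _).ne_zero, gp_natDegree, hE]) M
    exact h1
  · have hx0 : ∀ w, ∀ i, 0 < av w (x - algebraMap K L (a i)) := fun w i =>
      (av w).pos_iff.2 (sub_ne_zero.2 (hx i))
    have hterm : ∀ k : Fin (M + 1), wt v * Real.log (av v (Algebra.trace K L (θ * aeval x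
        (gp a fun i => ((β k).1 i : ℕ))))) ≤ (t0 + M * c0 + B k) + ct := by
      intro k
      refine hct L hrL _ _ (fun w hw => ?_) (hT (β k))
      rw [hβE k, gp_aeval]
      have hov := mem_ab.1 hw
      have hnn := one_le_nn hov
      have hnn0 : 0 < nn v w := by linarith
      have hlog : Real.log (av w (θ * ∏ i, (x - algebraMap K L (a i)) ^ E k i)) =
          Real.log (av w θ) + ∑ i, E k i * Real.log (av w (x - algebraMap K L (a i))) := by
        rw [map_mul, map_prod, Real.log_mul ((av w).pos_iff.2 hθ0).ne'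
          (prod_ne_zero_iff.2 fun i _ => by rw [map_pow]; exact pow_ne_zero _ (hx0 w i).ne'),
          Real.log_prod (fun i _ => by rw [map_pow]; exact pow_ne_zero _ (hx0 w i).ne')]
        congr 1
        exact sum_congr rfl fun i _ => by rw [map_pow, Real.log_pow]
      rw [hlog]
      set Xl : ℝ := wt w * Real.log (max 1 (av w x)) with hXl
      have hXl0 : 0 ≤ Xl := mul_nonneg (wt_nonneg w) (Real.log_nonneg (le_max_left _ _))
      have hpr : ∀ i, wt w * Real.log (av w (x - algebraMap K L (a i))) =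
          Xl - nn v w * prx v w (a i) x := by
        intro i
        unfold prx
        rw [mul_div_cancel₀ _ hnn0.ne', hXl]
        ring
      have h1 : wt w * (Real.log (av w θ) +
          ∑ i, E k i * Real.log (av w (x - algebraMap K L (a i)))) =
          wt w * Real.log (av w θ) + (k : ℕ) * Xl - nn v w * ∑ i, E k i * prx v w (a i) x := by
        have h2 : ((k : ℕ) : ℝ) = ∑ i, (E k i : ℝ) := by exact_mod_cast (hE k).symm
        rw [mul_add, mul_sum, h2, sum_mul, mul_sum, add_sub_assoc, ← sum_sub_distrib]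
        congr 1
        refine sum_congr rfl fun i _ => ?_
        have := hpr i
        rw [show wt w * (E k i * Real.log (av w (x - algebraMap K L (a i)))) =
          E k i * (wt w * Real.log (av w (x - algebraMap K L (a i)))) by ring, this]
        ring
      rw [h1]
      have hkM : ((k : ℕ) : ℝ) ≤ M := by
        have := k.2
        exact_mod_cast (by omega : (k : ℕ) ≤ M)
      have h2 : ((k : ℕ) : ℝ) * Xl ≤ M * Xl := mul_le_mul_of_nonneg_right hkM hXl0
      have h3 : E k (e w) * ℓ w - M * c0 ≤ ∑ i, E k i * prx v w (a i) x := by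
        have h4 : ∑ i, (E k i : ℝ) * prx v w (a i) x =
            ∑ i, (E k i : ℝ) * (prx v w (a i) x + c0) - (k : ℕ) * c0 := by
          have h5 : ((k : ℕ) : ℝ) = ∑ i, (E k i : ℝ) := by exact_mod_cast (hE k).symm
          rw [h5, sum_mul, ← sum_sub_distrib]
          exact sum_congr rfl fun i _ => by ring
        have h6 : (E k (e w) : ℝ) * ℓ w ≤ ∑ i, (E k i : ℝ) * (prx v w (a i) x + c0) :=
          single_le_sum (f := fun i => (E k i : ℝ) * (prx v w (a i) x + c0))
            (fun i _ => mul_nonneg (Nat.cast_nonneg _) (hpos w hw i)) (mem_univ (e w))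
        have h7 : ((k : ℕ) : ℝ) * c0 ≤ M * c0 := mul_le_mul_of_nonneg_right hkM hc0
        linarith
      have h4 := hθ w hw
      have h5 := hLam1 (e w) (E k (e w)) w ((hmW _ _).2 ⟨hw, rfl⟩)
      have h6 := hB k (e w)
      have h7 : nn v w * (t0 + c * ∑ w' ∈ (ab L v).filter (fun w' => e w' = e w),
        nn v w' * min (prx v w (a (e w)) x + c0) (prx v w' (a (e w')) x + c0)) ≤
          nn v w * (t0 + B k + E k (e w) * ℓ w) := by
        refine mul_le_mul_of_nonneg_left ?_ hnn0.le
        have h8 : c * ∑ w' ∈ (ab L v).filter (fun w' => e w' = e w),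
          nn v w' * min (prx v w (a (e w)) x + c0) (prx v w' (a (e w')) x + c0) -
            E k (e w) * ℓ w ≤ Lam (e w) (E k (e w)) := h5
        linarith
      have h8 : nn v w * (E k (e w) * ℓ w - M * c0) ≤
          nn v w * ∑ i, E k i * prx v w (a i) x := mul_le_mul_of_nonneg_left h3 hnn0.le
      have h9 : nn v w * (t0 + M * c0 + B k) = nn v w * (t0 + B k + E k (e w) * ℓ w) -
        nn v w * (E k (e w) * ℓ w - M * c0) := by ring
      rw [h9]
      linarith
    refine (sum_le_sum fun k _ => hterm k).trans ?_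
    have h1 : ∑ k : Fin (M + 1), ((t0 + M * c0 + B k) + ct) =
        (M + 1) * (t0 + (M * c0 + ct)) + ∑ k ∈ range (M + 1), B k := by
      rw [Finset.sum_range, sum_add_distrib, sum_add_distrib, sum_const, sum_const, card_univ,
        Fintype.card_fin, nsmul_eq_mul, nsmul_eq_mul]
      push_cast
      ring
    rw [h1]
    refine add_le_add le_rfl (hBs.trans ?_)
    refine (sum_le_sum fun i _ => hLam2 i (M + 1)).trans (le_of_eq ?_)
    rw [sum_add_distrib, ← mul_sum, ← mul_sum]
    congr 2
    rw [← sum_fiberwise_of_maps_to (s := ab L v) (t := univ) (g := e) (fun _ _ => mem_univ _)]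

end Pool.Agent.H430.Cl
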