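import Pool.Agent.H430.Cl.Main

/-!
Places in towers of number fields.
-/

set_option autoImplicit false

namespace Pool.Agent.H430.Cl

open Finset NumberField IsDedekindDomain Height Module Polynomial
open Pool.Agent.W180.OP (Pl av wt fv nrm wt_nonneg le_nrm exists_nrm)
open Pool.Agent.NH28 (Ov nn ab mem_ab sum_nn one_le_nn nn_ext nn_nonneg exists_below ov_unique
  exists_small_fv)

lemma wt_pos {K : Type} [Field K] [NumberField K] (v : Pl K) : 0 < wt v := by
  cases v with
  | inl v => exact Nat.cast_pos.2 InfinitePlace.mult_pos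
  | inr v => exact one_pos

lemma av_inl {K : Type} [Field K] [NumberField K] (v : InfinitePlace K) (z : K) :
    av (Sum.inl v : Pl K) z = v z := rfl

lemma exists_nontriv {K : Type} [Field K] [NumberField K] (v : Pl K) :
    ∃ z : K, wt v * Real.log (av v z) ≠ 0 := by
  cases v with
  | inl v =>
    refine ⟨2, mul_ne_zero (wt_pos _).ne' ?_⟩
    rw [av_inl]
    have h1 : v (2 : K) = 2 := by
      have := InfinitePlace.norm_embedding_eq v (2 : K)
      rw [← this, map_ofNat]
      simp
    rw [h1]
    exact (Real.log_pos (by norm_num)).ne'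
  | inr v =>
    obtain ⟨π, h0, h1⟩ := exists_small_fv v
    refine ⟨π, mul_ne_zero (wt_pos _).ne' ?_⟩
    exact (Real.log_neg ((fv v).pos_iff.2 h0) h1).ne

lemma av_inj {K : Type} [Field K] [NumberField K] {u u' : Pl K} (h : ∀ y, av u y = av u' y) :
    u = u' := by
  have h2 : ∀ (v : InfinitePlace K) (w : HeightOneSpectrum (𝓞 K)),
      av (Sum.inl v : Pl K) 2 ≠ av (Sum.inr w : Pl K) 2 := by
    intro v w he
    have h1 : v (2 : K) = 2 := by
      have := InfinitePlace.norm_embedding_eq v (2 : K)
      rw [← this, map_ofNat]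
      simp
    rw [av_inl, h1] at he
    have h3 : fv w 2 ≤ 1 := by
      exact FinitePlace.norm_le_one K w (2 : 𝓞 K)
    have h4 : (2 : ℝ) = fv w 2 := he
    linarith
  cases u with
  | inl v =>
    cases u' with
    | inl v' => exact congrArg _ (Subtype.ext (DFunLike.ext _ _ h))
    | inr w => exact absurd (h 2) (h2 v w)
  | inr w =>
    cases u' with
    | inl v' => exact absurd (h 2).symm (h2 v' w)
    | inr w' =>
      refine congrArg _ (FinitePlace.mk_eq_iff.1 ?_)
      exact Subtype.ext (DFunLike.ext _ _ h)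

section tower

variable {K L E : Type} [Field K] [NumberField K] [Field L] [NumberField L] [Field E]
  [NumberField E] [Algebra K L] [Algebra L E] [Algebra K E] [IsScalarTower K L E]

lemma ov_trans {v : Pl K} {w : Pl L} {u : Pl E} (h1 : Ov v w) (h2 : Ov w u) : Ov v u := by
  cases v with
  | inl v =>
    cases w with
    | inl w =>
      cases u with
      | inl u =>
        show u.comap (algebraMap K E) = v
        have e1 : w.comap (algebraMap K L) = v := h1
        have e2 : u.comap (algebraMap L E) = w := h2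
        rw [← e1, ← e2, ← InfinitePlace.comap_comp, ← IsScalarTower.algebraMap_eq]
      | inr u => exact h2.elim
    | inr w => exact h1.elim
  | inr v =>
    cases w with
    | inl w => exact h1.elim
    | inr w =>
      cases u with
      | inl u => exact h2.elim
      | inr u =>
        have e1 := (show w.asIdeal.LiesOver v.asIdeal from h1).over
        have e2 := (show u.asIdeal.LiesOver w.asIdeal from h2).over
        refine (⟨?_⟩ : u.asIdeal.LiesOver v.asIdeal)
        rw [e1, e2]
        ext y
        simp only [Ideal.under_def, Ideal.mem_comap]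
        have : algebraMap (𝓞 L) (𝓞 E) (algebraMap (𝓞 K) (𝓞 L) y) = algebraMap (𝓞 K) (𝓞 E) y := by
          apply RingOfIntegers.ext
          show algebraMap L E (algebraMap K L y) = algebraMap K E y
          rw [← IsScalarTower.algebraMap_apply]
        rw [this]

lemma ov_tower {v : Pl K} {w : Pl L} {u : Pl E} (h1 : Ov v u) (h2 : Ov w u) : Ov v w := by
  obtain ⟨v', hv'⟩ := exists_below (K := K) w
  have := ov_unique h1 (ov_trans hv' h2)
  rwa [this]

lemma nn_mul {v : Pl K} {w : Pl L} {u : Pl E} (h1 : Ov v w) (h2 : Ov w u) :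
    nn v u = nn v w * nn w u := by
  obtain ⟨z, hz⟩ := exists_nontriv v
  have e1 := nn_ext (ov_trans h1 h2) z
  have e2 := nn_ext h1 z
  have e3 := nn_ext h2 (algebraMap K L z)
  rw [← IsScalarTower.algebraMap_apply, e2, e1, ← mul_assoc (nn w u)] at e3
  have e4 := mul_right_cancel₀ hz e3
  rw [e4]
  ring

lemma sum_tower (v : Pl K) (F : Pl E → ℝ) :
    ∑ w ∈ ab L v, ∑ u ∈ ab E w, F u = ∑ u ∈ ab E v, F u := by
  classical
  choose bel hbel using fun u : Pl E => exists_below (K := L) u
  have hb : ∀ w, ∀ u ∈ ab E w, bel u = w := fun w u hu => ov_unique (hbel u) (mem_ab.1 hu)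
  rw [← sum_fiberwise_of_maps_to (s := ab E v) (t := ab L v) (g := bel)
    (fun u hu => mem_ab.2 (ov_tower (mem_ab.1 hu) (hbel u)))]
  refine sum_congr rfl fun w hw => ?_
  refine sum_congr ?_ fun _ _ => rfl
  ext u
  rw [mem_filter, mem_ab, mem_ab]
  constructor
  · intro h
    exact ⟨ov_trans (mem_ab.1 hw) h, hb w u (mem_ab.2 h)⟩
  · rintro ⟨h1, rfl⟩
    exact hbel u

end tower

/-- pulling back a place along an isomorphism -/
lemma exists_pull1 {A B : Type} [Field A] [NumberField A] [Field B] [NumberField B] [Algebra A B]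
    (h1 : finrank A B = 1) (u : Pl B) :
    ∃ u' : Pl A, Ov u' u ∧ wt u' = wt u ∧ ∀ y : A, av u (algebraMap A B y) = av u' y := by
  obtain ⟨u', hu'⟩ := exists_below (K := A) u
  have hs := sum_nn B u'
  rw [h1] at hs
  have hle : nn u' u ≤ 1 := by
    have := single_le_sum (f := fun w => nn u' w) (fun w _ => nn_nonneg u' w) (mem_ab.2 hu')
    rw [hs] at this
    simpa using this
  have h1' : nn u' u = 1 := le_antisymm hle (one_le_nn hu')
  have hwt : wt u' = wt u := by
    cases u' with
    | inl v' =>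
      cases u with
      | inl v =>
        have e : (v.mult : ℝ) / v'.mult = 1 := h1'
        have hne : (v'.mult : ℝ) ≠ 0 := Nat.cast_ne_zero.2 InfinitePlace.mult_pos.ne'
        rw [div_eq_one_iff_eq hne] at e
        exact e.symm
      | inr v => exact hu'.elim
    | inr v' =>
      cases u with
      | inl v => exact hu'.elim
      | inr v => rfl
  refine ⟨u', hu', hwt, fun y => ?_⟩
  rcases eq_or_ne y 0 with rfl | hy
  · simp
  have e := nn_ext hu' y
  rw [h1', one_mul, hwt] at e
  have e2 := mul_left_cancel₀ (wt_pos u).ne' e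
  exact Real.log_injOn_pos ((av u).pos_iff.2 ((_root_.map_ne_zero _).2 hy)) ((av u').pos_iff.2 hy) e2

section galois

variable {K E : Type} [Field K] [NumberField K] [Field E] [NumberField E] [Algebra K E]

lemma exists_pull_gen {A B : Type} [Field A] [NumberField A] [Field B] [NumberField B]
    [Algebra K A] [Algebra K B] (σ : A →+* B) (hσ : Function.Surjective σ)
    (hc : ∀ z : K, σ (algebraMap K A z) = algebraMap K B z) (u : Pl B) :
    ∃ u' : Pl A, wt u' = wt u ∧ (∀ y : A, av u' y = av u (σ y)) ∧ ∀ v : Pl K, Ov v u → Ov v u' := by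
  let _ : Algebra A B := σ.toAlgebra
  have hs : IsScalarTower K A B := IsScalarTower.of_algebraMap_eq fun y => (hc y).symm
  have h1 : finrank A B = 1 := by
    have h2 : Function.Bijective (algebraMap A B) := ⟨(algebraMap A B).injective, hσ⟩
    have e : A ≃ₗ[A] B := LinearEquiv.ofBijective (Algebra.linearMap A B) h2
    rw [← e.finrank_eq, finrank_self]
  obtain ⟨u', h2, h3, h4⟩ := exists_pull1 h1 u
  exact ⟨u', h3, fun y => (h4 y).symm, fun v hv => ov_tower hv h2⟩

lemma exists_pull (σ : E ≃ₐ[K] E) (u : Pl E) :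
    ∃ u' : Pl E, wt u' = wt u ∧ (∀ y : E, av u' y = av u (σ y)) ∧ ∀ v : Pl K, Ov v u → Ov v u' :=
  exists_pull_gen (σ : E →+* E) σ.surjective σ.commutes u

/-- the pull back of a place -/
noncomputable def pull (σ : E ≃ₐ[K] E) (u : Pl E) : Pl E := (exists_pull σ u).choose

lemma pull_wt (σ : E ≃ₐ[K] E) (u : Pl E) : wt (pull σ u) = wt u := (exists_pull σ u).choose_spec.1

lemma pull_av (σ : E ≃ₐ[K] E) (u : Pl E) (y : E) : av (pull σ u) y = av u (σ y) :=
  (exists_pull σ u).choose_spec.2.1 y

lemma pull_ov (σ : E ≃ₐ[K] E) {u : Pl E} {v : Pl K} (h : Ov v u) : Ov v (pull σ u) :=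
  (exists_pull σ u).choose_spec.2.2 v h

lemma pull_pull (σ τ : E ≃ₐ[K] E) (u : Pl E) : pull σ (pull τ u) = pull (τ * σ) u :=
  av_inj fun y => by
    rw [pull_av, pull_av, pull_av]
    rfl

lemma pull_one (u : Pl E) : pull (1 : E ≃ₐ[K] E) u = u :=
  av_inj fun y => by
    rw [pull_av]
    rfl

lemma pull_nn (σ : E ≃ₐ[K] E) {u : Pl E} {v : Pl K} (h : Ov v u) : nn v (pull σ u) = nn v u := by
  obtain ⟨z, hz⟩ := exists_nontriv v
  have e1 := nn_ext h z
  have e2 := nn_ext (pull_ov σ h) z
  rw [pull_wt, pull_av, σ.commutes, e1] at e2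
  exact (mul_right_cancel₀ hz e2).symm

/-- the Galois group permutes the places above `v` transitively -/
lemma exists_pull_eq [IsGalois K E] {v : Pl K} {u u' : Pl E} (h : Ov v u) (h' : Ov v u') :
    ∃ σ : E ≃ₐ[K] E, pull σ u = u' := by
  cases v with
  | inl v =>
    cases u with
    | inl u =>
      cases u' with
      | inl u' =>
        have e1 : u.comap (algebraMap K E) = v := h
        have e2 : u'.comap (algebraMap K E) = v := h'
        obtain ⟨σ, hσ⟩ := InfinitePlace.exists_smul_eq_of_comap_eq (k := K) (e1.trans e2.symm)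
        refine ⟨σ⁻¹, av_inj fun y => ?_⟩
        rw [pull_av, ← hσ]
        exact (InfinitePlace.smul_apply σ u y).symm
      | inr u' => exact h'.elim
    | inr u => exact h.elim
  | inr v =>
    cases u with
    | inl u => exact h.elim
    | inr u =>
      cases u' with
      | inl u' => exact h'.elim
      | inr u' =>
        have := u.isPrime
        have := u'.isPrime
        have i1 : u.asIdeal.LiesOver v.asIdeal := h
        have i2 : u'.asIdeal.LiesOver v.asIdeal := h'
        obtain ⟨σ, hσ⟩ := Ideal.exists_smul_eq_of_isGaloisGroup v.asIdeal u'.asIdeal u.asIdeal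
          (E ≃ₐ[K] E)
        refine ⟨σ, ?_⟩
        have hp : Ov (Sum.inr v : Pl K) (pull σ (Sum.inr u : Pl E)) := pull_ov σ h
        have hpa := pull_av σ (Sum.inr u : Pl E)
        generalize pull σ (Sum.inr u : Pl E) = t at hp hpa
        cases t with
        | inl t => exact hp.elim
        | inr t =>
          refine congrArg _ (HeightOneSpectrum.ext ?_)
          ext y
          have h3 := FinitePlace.norm_lt_one_iff_mem E t y
          have h4 := FinitePlace.norm_lt_one_iff_mem E u (σ • y)
          have e3 : fv t (y : E) = ‖FinitePlace.embedding t (y : E)‖ := rfl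
          have e4 : fv u ((σ • y : 𝓞 E) : E) = ‖FinitePlace.embedding u ((σ • y : 𝓞 E) : E)‖ := rfl
          have e5 : fv t (y : E) = fv u (σ (y : E)) := hpa y
          have e6 : ((σ • y : 𝓞 E) : E) = σ (y : E) := rfl
          rw [← h3, ← e3, e5, ← e6, e4, h4, ← hσ]
          exact Ideal.smul_mem_pointwise_smul_iff

/-- the sum over the Galois group of a function of the place -/
theorem gal_sum [IsGalois K E] {v : Pl K} {u : Pl E} (h : Ov v u) (F : Pl E → ℝ) :
    ∑ σ : E ≃ₐ[K] E, F (pull σ u) = ∑ u' ∈ ab E v, nn v u' * F u' := by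
  classical
  have hcard : (Fintype.card (E ≃ₐ[K] E) : ℝ) = finrank K E := by
    rw [← IsGalois.card_aut_eq_finrank K E, Nat.card_eq_fintype_card]
  -- independence of the place
  have hind : ∀ F : Pl E → ℝ, ∀ u' ∈ ab E v, ∑ σ : E ≃ₐ[K] E, F (pull σ u') =
      ∑ σ : E ≃ₐ[K] E, F (pull σ u) := by
    intro F u' hu'
    obtain ⟨τ, rfl⟩ := exists_pull_eq h (mem_ab.1 hu')
    simp only [pull_pull]
    exact Fintype.sum_equiv (Equiv.mulLeft τ) _ _ fun σ => rfl
  -- permutation of the places
  have hperm : ∀ F : Pl E → ℝ, ∀ σ : E ≃ₐ[K] E, ∑ u' ∈ ab E v, F (pull σ u') =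
      ∑ u' ∈ ab E v, F u' := by
    intro F σ
    refine sum_nbij' (fun u' => pull σ u') (fun u' => pull σ⁻¹ u') ?_ ?_ ?_ ?_ ?_
    · intro u' hu'
      exact mem_ab.2 (pull_ov σ (mem_ab.1 hu'))
    · intro u' hu'
      exact mem_ab.2 (pull_ov σ⁻¹ (mem_ab.1 hu'))
    · intro u' _
      rw [pull_pull, mul_inv_cancel, pull_one]
    · intro u' _
      rw [pull_pull, inv_mul_cancel, pull_one]
    · intro u' _
      rfl
  have havg : ∀ F : Pl E → ℝ, ((ab E v).card : ℝ) * ∑ σ : E ≃ₐ[K] E, F (pull σ u) =
      finrank K E * ∑ u' ∈ ab E v, F u' := by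
    intro F
    have h1 : ∑ u' ∈ ab E v, ∑ σ : E ≃ₐ[K] E, F (pull σ u') =
        ((ab E v).card : ℝ) * ∑ σ : E ≃ₐ[K] E, F (pull σ u) := by
      rw [sum_congr rfl (hind F), sum_const, nsmul_eq_mul]
    rw [← h1, sum_comm, sum_congr rfl (fun σ _ => hperm F σ), sum_const, card_univ, nsmul_eq_mul,
      hcard]
  have hnnc : ∀ u' ∈ ab E v, nn v u' = nn v u := by
    intro u' hu'
    obtain ⟨τ, rfl⟩ := exists_pull_eq h (mem_ab.1 hu')
    exact pull_nn τ h
  have hs := sum_nn E v
  rw [sum_congr rfl hnnc, sum_const, nsmul_eq_mul] at hs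
  have hpos : (0 : ℝ) < (ab E v).card := by
    have : 0 < (ab E v).card := card_pos.2 ⟨u, mem_ab.2 h⟩
    exact_mod_cast this
  have h2 := havg F
  rw [← hs, mul_assoc] at h2
  have h3 := mul_left_cancel₀ hpos.ne' h2
  rw [h3, mul_sum]
  exact sum_congr rfl fun u' hu' => by rw [hnnc u' hu']

end galois

end Pool.Agent.H430.Cl
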